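import Mathlib
set_option autoImplicit false

namespace Pool.Agent.Helper704.HW

noncomputable abbrev L := lp (fun _ : ℕ => ℂ) 2

lemma norm_sq_lp {ι : Type*} (c : lp (fun _ : ι => ℂ) 2) : ‖c‖ ^ 2 = ∑' i, ‖c i‖ ^ 2 := by
  have h := lp.norm_rpow_eq_tsum (p := 2) (by norm_num) c
  have e : ENNReal.toReal 2 = ((2 : ℕ) : ℝ) := by norm_num
  rw [e] at h
  simp only [Real.rpow_natCast] at h
  exact h

lemma summable_sq_lp {ι : Type*} (c : lp (fun _ : ι => ℂ) 2) : Summable (fun i => ‖c i‖ ^ 2) := by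
  have h := (lp.memℓp c).summable (by norm_num)
  have e : ENNReal.toReal 2 = ((2 : ℕ) : ℝ) := by norm_num
  rw [e] at h
  simp only [Real.rpow_natCast] at h
  exact h

lemma mem_of_summable {ι : Type*} (c : ι → ℂ) (h : Summable (fun i => ‖c i‖ ^ 2)) :
    Memℓp c 2 := by
  apply memℓp_gen
  have e : ENNReal.toReal 2 = ((2 : ℕ) : ℝ) := by norm_num
  rw [e]
  simp only [Real.rpow_natCast]
  exact h

/-- The orthogonal complement of the fibre. -/
noncomputable def VV {P : Type*} (w : P → L) : Submodule ℂ L := (Submodule.span ℂ (Set.range w))ᗮ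

lemma mem_VV {P : Type*} (w : P → L) (v : L) : v ∈ VV w ↔ ∀ p, inner ℂ (w p) v = 0 := by
  unfold VV
  rw [Submodule.mem_orthogonal]
  constructor
  · intro h p
    exact h _ (Submodule.subset_span ⟨p, rfl⟩)
  · intro h x hx
    induction hx using Submodule.span_induction with
    | mem x hx => obtain ⟨p, rfl⟩ := hx; exact h p
    | zero => simp
    | add x y _ _ h1 h2 => rw [inner_add_left, h1, h2, add_zero]
    | smul a x _ h1 => rw [inner_smul_left, h1, mul_zero]

/-- Perturbation: an injection between complements. -/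
lemma exists_inj {P : Type*} (w w' : P → L) (A δ : ℝ) (hA : 0 < A) (hδ : 0 ≤ δ) (hδA : δ ^ 2 < A)
    (hL : ∀ (s : Finset P) (c : P → ℂ), A * ∑ p ∈ s, ‖c p‖ ^ 2 ≤ ‖∑ p ∈ s, c p • w p‖ ^ 2)
    (hD : ∀ s : Finset P, ∑ p ∈ s, ‖w p - w' p‖ ^ 2 ≤ δ ^ 2) :
    ∃ f : VV w' →ₗ[ℂ] VV w, Function.Injective f := by
  classical
  have : CompleteSpace (VV w) := (Submodule.isClosed_orthogonal _).completeSpace_coe
  refine ⟨((VV w).orthogonalProjectionOnto : L →ₗ[ℂ] VV w).comp (VV w').subtype, ?_⟩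
  rw [← LinearMap.ker_eq_bot, LinearMap.ker_eq_bot']
  rintro ⟨v, hv⟩ hv0
  have hv1 : (VV w).orthogonalProjectionOnto v = 0 := hv0
  have hv2 : v ∈ (VV w)ᗮ := by
    rw [← Submodule.orthogonalProjectionOnto_eq_zero_iff] 
    exact hv1
  have hv3 : v ∈ closure ((Submodule.span ℂ (Set.range w) : Submodule ℂ L) : Set L) := by
    unfold VV at hv2
    rw [Submodule.orthogonal_orthogonal_eq_closure] at hv2
    exact hv2
  have hv' : ∀ p, inner ℂ (w' p) v = 0 := (mem_VV w' v).1 hv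
  -- the estimate on the span
  have h1 : ∀ x ∈ (Submodule.span ℂ (Set.range w) : Submodule ℂ L),
      Real.sqrt A * ‖(inner ℂ x v : ℂ)‖ ≤ δ * ‖x‖ * ‖v‖ := by
    intro x hx
    rw [Finsupp.mem_span_range_iff_exists_finsupp] at hx
    obtain ⟨c, rfl⟩ := hx
    rw [Finsupp.sum]
    have e1 : (inner ℂ (∑ p ∈ c.support, c p • w p) v : ℂ) =
        inner ℂ (∑ p ∈ c.support, c p • (w p - w' p)) v := by
      rw [sum_inner, sum_inner]
      refine Finset.sum_congr rfl fun p _ => ?_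
      rw [inner_smul_left, inner_smul_left, inner_sub_left, hv', sub_zero]
    have e2 : ‖∑ p ∈ c.support, c p • (w p - w' p)‖ ≤
        Real.sqrt (∑ p ∈ c.support, ‖c p‖ ^ 2) * δ := by
      calc ‖∑ p ∈ c.support, c p • (w p - w' p)‖ ≤ ∑ p ∈ c.support, ‖c p‖ * ‖w p - w' p‖ := by
            refine (norm_sum_le _ _).trans (le_of_eq ?_)
            refine Finset.sum_congr rfl fun p _ => norm_smul _ _
        _ ≤ Real.sqrt (∑ p ∈ c.support, ‖c p‖ ^ 2) *
            Real.sqrt (∑ p ∈ c.support, ‖w p - w' p‖ ^ 2) := Real.sum_mul_le_sqrt_mul_sqrt _ _ _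
        _ ≤ Real.sqrt (∑ p ∈ c.support, ‖c p‖ ^ 2) * δ := by
            gcongr
            rw [Real.sqrt_le_left hδ]
            exact hD _
    have e3 : Real.sqrt A * Real.sqrt (∑ p ∈ c.support, ‖c p‖ ^ 2) ≤
        ‖∑ p ∈ c.support, c p • w p‖ := by
      rw [← Real.sqrt_mul hA.le, Real.sqrt_le_left (norm_nonneg _)]
      exact hL _ _
    rw [e1]
    calc Real.sqrt A * ‖(inner ℂ (∑ p ∈ c.support, c p • (w p - w' p)) v : ℂ)‖
        ≤ Real.sqrt A * (‖∑ p ∈ c.support, c p • (w p - w' p)‖ * ‖v‖) := by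
          gcongr; exact norm_inner_le_norm _ _
      _ ≤ Real.sqrt A * (Real.sqrt (∑ p ∈ c.support, ‖c p‖ ^ 2) * δ * ‖v‖) := by gcongr
      _ = (Real.sqrt A * Real.sqrt (∑ p ∈ c.support, ‖c p‖ ^ 2)) * δ * ‖v‖ := by ring
      _ ≤ ‖∑ p ∈ c.support, c p • w p‖ * δ * ‖v‖ := by gcongr
      _ = δ * ‖∑ p ∈ c.support, c p • w p‖ * ‖v‖ := by ring
  have h2 : Real.sqrt A * ‖(inner ℂ v v : ℂ)‖ ≤ δ * ‖v‖ * ‖v‖ := by
    have hcl : IsClosed {x : L | Real.sqrt A * ‖(inner ℂ x v : ℂ)‖ ≤ δ * ‖x‖ * ‖v‖} := by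
      apply isClosed_le <;> fun_prop
    exact closure_minimal (t := {x : L | Real.sqrt A * ‖(inner ℂ x v : ℂ)‖ ≤ δ * ‖x‖ * ‖v‖})
      (fun x hx => h1 x hx) hcl hv3
  have h3 : ‖(inner ℂ v v : ℂ)‖ = ‖v‖ ^ 2 := by
    rw [inner_self_eq_norm_sq_to_K]; simp
  rw [h3] at h2
  have h4 : δ < Real.sqrt A := by
    rw [Real.lt_sqrt hδ]; exact hδA
  have h5 : v = 0 := by
    by_contra hne
    have : 0 < ‖v‖ := norm_pos_iff.2 hne
    nlinarith [mul_pos this this]
  exact Subtype.ext h5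

/-- Prepend a coordinate. -/
noncomputable def prep : (ℂ × L) →ₗ[ℂ] L where
  toFun q := ⟨fun k => Nat.casesOn k q.1 (fun k => q.2 k), by
    apply mem_of_summable
    rw [← summable_nat_add_iff 1]
    exact summable_sq_lp q.2⟩
  map_add' q q' := by
    ext k
    cases k <;> rfl
  map_smul' c q := by
    ext k
    cases k <;> rfl

lemma prep_zero (q : ℂ × L) : prep q 0 = q.1 := rfl
lemma prep_succ (q : ℂ × L) (k : ℕ) : prep q (k + 1) = q.2 k := rfl

lemma inner_prep (x : L) (q : ℂ × L) (z : ℂ) (y : L) (h0 : x 0 = 0)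
    (h1 : ∀ k, x (k + 1) = z * y k) : inner ℂ x (prep q) = (starRingEnd ℂ z) * inner ℂ y q.2 := by
  have hs := lp.summable_inner (𝕜 := ℂ) x (prep q)
  rw [lp.inner_eq_tsum, lp.inner_eq_tsum, hs.tsum_eq_zero_add, ← tsum_mul_left, h0]
  simp only [inner_zero_left, zero_add]
  congr 1
  funext k
  rw [h1, prep_succ]
  simp
  ring

/-- The abstract contradiction. -/
theorem abs_contra {P : Type*} (u : ℝ → P → L) (A C : ℝ) (hA : 0 < A) (hC : 0 ≤ C)
    (hL : ∀ ξ ∈ Set.Icc (0:ℝ) 1, ∀ (s : Finset P) (c : P → ℂ),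
      A * ∑ p ∈ s, ‖c p‖ ^ 2 ≤ ‖∑ p ∈ s, c p • u ξ p‖ ^ 2)
    (hD : ∀ ξ ∈ Set.Icc (0:ℝ) 1, ∀ ξ' ∈ Set.Icc (0:ℝ) 1, ∀ s : Finset P,
      ∑ p ∈ s, ‖u ξ p - u ξ' p‖ ^ 2 ≤ (C * |ξ - ξ'|) ^ 2)
    (M : ℕ) (hM : ∀ v : L, (∀ p, inner ℂ (u 0 p) v = 0) → (∀ k < M, v k = 0) → v = 0)
    (h0 : ∀ p, u 0 p 0 = 0) (z : P → ℂ) (h1 : ∀ p k, u 0 p (k + 1) = z p * u 1 p k) : False := by
  -- finite dimension of the complement at zero
  have hfd : FiniteDimensional ℂ (VV (u 0)) := by
    let f : VV (u 0) →ₗ[ℂ] (Fin M → ℂ) :=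
      { toFun := fun v k => (v : L) k
        map_add' := fun _ _ => rfl
        map_smul' := fun _ _ => rfl }
    have hf : Function.Injective f := by
      rw [← LinearMap.ker_eq_bot, LinearMap.ker_eq_bot']
      rintro ⟨v, hv⟩ hv0
      have := hM v ((mem_VV _ v).1 hv) (fun k hk => congrFun hv0 ⟨k, hk⟩)
      exact Subtype.ext this
    exact FiniteDimensional.of_injective f hf
  -- from 1 to 0
  have hback : ∃ f : (ℂ × VV (u 1)) →ₗ[ℂ] VV (u 0), Function.Injective f := by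
    refine ⟨LinearMap.codRestrict (VV (u 0))
      (prep.comp (LinearMap.prodMap LinearMap.id (VV (u 1)).subtype)) ?_, ?_⟩
    · intro q
      rw [mem_VV]
      intro p
      change inner ℂ (u 0 p) (prep (q.1, (q.2 : L))) = 0
      rw [inner_prep (u 0 p) _ (z p) (u 1 p) (h0 p) (h1 p), (mem_VV _ _).1 q.2.2 p, mul_zero]
    · rw [← LinearMap.ker_eq_bot, LinearMap.ker_eq_bot']
      rintro ⟨a, v, hv⟩ hq
      have hq' : prep (a, v) = 0 := congrArg Subtype.val hq
      have ha : a = 0 := by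
        have : prep (a, v) 0 = 0 := by rw [hq']; rfl
        exact this
      have hv' : v = 0 := by
        ext k
        have : prep (a, v) (k + 1) = 0 := by rw [hq']; rfl
        exact this
      subst ha; subst hv'
      rfl
  -- from 0 to 1
  obtain ⟨N, hN⟩ := exists_nat_gt (C ^ 2 / A + 1)
  have hN1 : (1:ℝ) < N := lt_of_le_of_lt (by have : 0 ≤ C ^ 2 / A := by positivity
                                             linarith) hN
  have hN0 : (0:ℝ) < N := by linarith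
  have hstep : ∀ i : ℕ, i ≤ N → ∃ f : VV (u 0) →ₗ[ℂ] VV (u (i / N)), Function.Injective f := by
    intro i
    induction i with
    | zero =>
      intro _
      have e : (((0:ℕ) : ℝ) / N) = 0 := by simp
      rw [e]
      exact ⟨LinearMap.id, fun _ _ h => h⟩
    | succ i ih =>
      intro hi
      obtain ⟨f, hf⟩ := ih (by omega)
      have hi1 : ((i + 1 : ℕ) : ℝ) ≤ N := by exact_mod_cast hi
      have hi0 : (i : ℝ) ≤ N := by push_cast at hi1; linarith
      have m1 : ((i + 1 : ℕ) : ℝ) / N ∈ Set.Icc (0:ℝ) 1 := by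
        constructor
        · positivity
        · rw [div_le_one hN0]; exact hi1
      have m0 : (i : ℝ) / N ∈ Set.Icc (0:ℝ) 1 := by
        constructor
        · positivity
        · rw [div_le_one hN0]; exact hi0
      obtain ⟨g, hg⟩ := exists_inj (u (((i + 1 : ℕ) : ℝ) / N)) (u ((i : ℝ) / N)) A
        (C * |((i + 1 : ℕ) : ℝ) / N - (i : ℝ) / N|) hA (by positivity) (by
          have e : ((i + 1 : ℕ) : ℝ) / N - (i : ℝ) / N = 1 / N := by
            push_cast; field_simp; ring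
          rw [e, abs_of_pos (by positivity), mul_pow]
          have h2 : C ^ 2 / A < N := by linarith
          rw [div_lt_iff₀ hA] at h2
          have h3 : C ^ 2 * (1 / (N:ℝ)) ^ 2 = C ^ 2 / (N * N) := by
            field_simp
          rw [h3, div_lt_iff₀ (by positivity)]
          nlinarith [mul_pos hA hN0])
        (hL _ m1) (fun s => hD _ m1 _ m0 s)
      exact ⟨g.comp f, hg.comp hf⟩
  have hforth := hstep N le_rfl
  rw [div_self hN0.ne'] at hforth
  obtain ⟨f, hf⟩ := hforth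
  obtain ⟨g, hg⟩ := hback
  have hfd1 : FiniteDimensional ℂ (VV (u 1)) := by
    have : Function.Injective (g.comp (LinearMap.inr ℂ ℂ (VV (u 1)))) :=
      hg.comp LinearMap.inr_injective
    exact FiniteDimensional.of_injective _ this
  have r1 := LinearMap.finrank_le_finrank_of_injective hf
  have r2 := LinearMap.finrank_le_finrank_of_injective hg
  rw [Module.finrank_prod, Module.finrank_self] at r2
  omega

end Pool.Agent.Helper704.HW
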