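import Mathlib
import Pool.Agent.Helper704.RW.Base
import Pool.Agent.Helper704.HW.Abs
set_option autoImplicit false
open MeasureTheory
open scoped ENNReal
open Pool.Agent.Helper704 Pool.Agent.Helper704.RW

namespace Pool.Agent.Helper704.HW

/-- The standing assumptions on the Fourier transform of the wavelet. -/
structure Nice (g : ℝ → ℂ) (K : ℝ) : Prop where
  pos : 0 < K
  diff : Differentiable ℝ g
  zero : ∀ x ≤ 0, g x = 0
  dec : ∀ x, 0 ≤ x → ‖g x‖ * (1 + x) ^ 2 ≤ K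
  der : ∀ x, 0 ≤ x → ‖deriv g x‖ * (1 + x) ≤ K

lemma exists_nice (g : SchwartzMap ℝ ℂ) (h0 : ∀ x ≤ 0, g x = 0) : ∃ K, Nice g K := by
  obtain ⟨C0, hC0, h00⟩ := g.decay 0 0
  obtain ⟨C1, hC1, h10⟩ := g.decay 1 0
  obtain ⟨C2, hC2, h20⟩ := g.decay 2 0
  obtain ⟨D0, hD0, h01⟩ := (SchwartzMap.derivCLM ℂ ℂ g).decay 0 0
  obtain ⟨D1, hD1, h11⟩ := (SchwartzMap.derivCLM ℂ ℂ g).decay 1 0
  simp only [norm_iteratedFDeriv_zero, pow_zero, one_mul, pow_one] at h00 h10 h20 h01 h11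
  refine ⟨C0 + 2 * C1 + C2 + D0 + D1, by positivity, g.differentiable, h0, ?_, ?_⟩
  · intro x hx
    have a0 := h00 x
    have a1 := h10 x
    have a2 := h20 x
    rw [Real.norm_of_nonneg hx] at a1 a2
    nlinarith [norm_nonneg (g x)]
  · intro x hx
    have a0 := h01 x
    have a1 := h11 x
    rw [Real.norm_of_nonneg hx] at a1
    rw [SchwartzMap.derivCLM_apply] at a0 a1
    nlinarith [norm_nonneg (deriv g x)]

lemma tele (a : ℝ) (ha : 0 < a) (ha1 : a ≤ 1) (N : ℕ) :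
    ∑ k ∈ Finset.range N, (1 / (1 + a * k)) ^ 2 ≤ 2 / a := by
  have h : ∀ N : ℕ, ∑ k ∈ Finset.range N, (1 / (1 + a * k)) ^ 2 ≤ (2 / a) * (1 - 1 / (1 + a * N)) := by
    intro N
    induction N with
    | zero => simp
    | succ N ih =>
      rw [Finset.sum_range_succ]
      refine (add_le_add_left ih _).trans ?_
      have hN : (0:ℝ) ≤ N := by positivity
      have h1 : 0 < 1 + a * N := by positivity
      have h2 : 0 < 1 + a * ((N + 1 : ℕ) : ℝ) := by positivity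
      push_cast at h2 ⊢
      have h3 : 2 / a * (1 - 1 / (1 + a * (N + 1))) - 2 / a * (1 - 1 / (1 + a * N)) =
          2 / ((1 + a * N) * (1 + a * (N + 1))) := by
        field_simp
        ring
      have h4 : (1 / (1 + a * (N:ℝ))) ^ 2 ≤ 2 / ((1 + a * N) * (1 + a * (N + 1))) := by
        rw [div_pow, one_pow, div_le_div_iff₀ (by positivity) (by positivity)]
        nlinarith [mul_nonneg ha.le hN]
      linarith
  refine (h N).trans ?_
  have : 0 ≤ 1 / (1 + a * (N:ℝ)) := by positivity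
  have h2 : 0 < 2 / a := by positivity
  nlinarith

lemma tele2 (M : ℕ) (hM : 1 ≤ M) (N : ℕ) :
    ∑ k ∈ Finset.range N, (if M ≤ k then (1 / (k:ℝ)) ^ 2 else (0:ℝ)) ≤ 2 / (M:ℝ) := by
  have h : ∀ N : ℕ, ∑ k ∈ Finset.range N, (if M ≤ k then (1 / (k:ℝ)) ^ 2 else (0:ℝ)) ≤
      2 / (M:ℝ) - 2 / ((max M N : ℕ) : ℝ) := by
    intro N
    induction N with
    | zero => simp
    | succ N ih =>
      rw [Finset.sum_range_succ]
      refine (add_le_add_left ih _).trans ?_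
      by_cases hN : M ≤ N
      · rw [if_pos hN, max_eq_right hN, max_eq_right (by omega)]
        have h1 : (1:ℝ) ≤ N := by exact_mod_cast hM.trans hN
        have h3 : 2 / (N:ℝ) - 2 / ((N + 1 : ℕ) : ℝ) = 2 / ((N:ℝ) * (N + 1)) := by
          push_cast
          field_simp
          ring
        have h4 : (1 / (N:ℝ)) ^ 2 ≤ 2 / ((N:ℝ) * (N + 1)) := by
          rw [div_pow, one_pow, div_le_div_iff₀ (by positivity) (by positivity)]
          nlinarith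
        linarith
      · rw [if_neg hN, max_eq_left (by omega), max_eq_left (by omega)]
        simp
  refine (h N).trans ?_
  have : (0:ℝ) ≤ 2 / ((max M N : ℕ) : ℝ) := by positivity
  linarith

/-- The fibre of a function. -/
noncomputable def fib (e : ℝ → ℂ) (ξ : ℝ) : L :=
  open Classical in
  if h : Memℓp (fun k : ℕ => e (ξ + k)) 2 then ⟨fun k : ℕ => e (ξ + k), h⟩ else 0

/-- Decay on the half line. -/
def Dec (e : ℝ → ℂ) : Prop := ∃ K : ℝ, 0 < K ∧ ∀ x, 0 ≤ x → ‖e x‖ * (1 + x) ≤ K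

lemma Dec.mem {e : ℝ → ℂ} (he : Dec e) {ξ : ℝ} (hξ : 0 ≤ ξ) :
    Memℓp (fun k : ℕ => e (ξ + k)) 2 := by
  obtain ⟨K, hK, h⟩ := he
  apply mem_of_summable
  refine summable_of_sum_range_le (c := K ^ 2 * (2 / 1)) (fun _ => by positivity) fun N => ?_
  calc ∑ k ∈ Finset.range N, ‖e (ξ + k)‖ ^ 2
      ≤ ∑ k ∈ Finset.range N, K ^ 2 * (1 / (1 + 1 * (k:ℝ))) ^ 2 := by
        refine Finset.sum_le_sum fun k _ => ?_
        have hk : (0:ℝ) ≤ k := by positivity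
        have h1 := h (ξ + k) (by positivity)
        rw [← mul_pow]
        refine pow_le_pow_left₀ (norm_nonneg _) ?_ 2
        rw [mul_one_div, le_div_iff₀ (by positivity)]
        nlinarith [norm_nonneg (e (ξ + k))]
    _ = K ^ 2 * ∑ k ∈ Finset.range N, (1 / (1 + 1 * (k:ℝ))) ^ 2 := by rw [Finset.mul_sum]
    _ ≤ K ^ 2 * (2 / 1) := by
        gcongr
        exact tele 1 (by norm_num) le_rfl N

lemma fib_apply {e : ℝ → ℂ} (he : Dec e) {ξ : ℝ} (hξ : 0 ≤ ξ) (k : ℕ) :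
    fib e ξ k = e (ξ + k) := by
  unfold fib
  rw [dif_pos (he.mem hξ)]

lemma norm_fib {e : ℝ → ℂ} (he : Dec e) {ξ : ℝ} (hξ : 0 ≤ ξ) :
    ‖fib e ξ‖ ^ 2 = ∑' k : ℕ, ‖e (ξ + k)‖ ^ 2 := by
  rw [norm_sq_lp]
  congr 1
  funext k
  rw [fib_apply he hξ]

lemma norm_fq (p : ℤ × ℤ) (g : ℝ → ℂ) (x : ℝ) :
    ‖fq p g x‖ = Real.sqrt ((2:ℝ) ^ (-p.1)) * ‖g ((2:ℝ) ^ (-p.1) * x)‖ := by
  unfold fq
  rw [norm_mul, norm_mul, norm_ex, mul_one, Complex.norm_real, Real.norm_of_nonneg (by positivity)]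

lemma dec_fq {g : ℝ → ℂ} {K : ℝ} (hg : Nice g K) (p : ℤ × ℤ) : Dec (fq p g) := by
  set a : ℝ := (2:ℝ) ^ (-p.1) with ha
  have ha0 : 0 < a := by positivity
  refine ⟨Real.sqrt a * K * (1 + 1 / a), ?_, ?_⟩
  · have := hg.pos
    positivity
  · intro x hx
    rw [norm_fq]
    have h1 := hg.dec (a * x) (by positivity)
    have h2 : (1 + x) ≤ (1 + 1 / a) * (1 + a * x) := by
      have : (1 + 1 / a) * (1 + a * x) = 1 + x + 1 / a + a * x := by
        field_simp; ring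
      rw [this]
      have : 0 ≤ 1 / a + a * x := by positivity
      linarith
    have h3 : ‖g (a * x)‖ * (1 + a * x) ≤ K := by
      have h4 : 0 ≤ a * x := by positivity
      nlinarith [norm_nonneg (g (a * x)), mul_nonneg (norm_nonneg (g (a * x))) h4]
    calc Real.sqrt a * ‖g (a * x)‖ * (1 + x)
        ≤ Real.sqrt a * ‖g (a * x)‖ * ((1 + 1 / a) * (1 + a * x)) := by gcongr
      _ = Real.sqrt a * (‖g (a * x)‖ * (1 + a * x)) * (1 + 1 / a) := by ring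
      _ ≤ Real.sqrt a * K * (1 + 1 / a) := by gcongr

/-- The index set of the fibres. -/
abbrev PP := Σ n : ℕ, Fin (2 ^ n)

/-- The corresponding wavelet index. -/
def ix (p : PP) : ℤ × ℤ := ((p.1 : ℤ), ((p.2 : ℕ) : ℤ))

/-- The normalised fibres. -/
noncomputable def uu (g : ℝ → ℂ) (ξ : ℝ) (p : PP) : L :=
  (starRingEnd ℂ (ex (ix p).2 ((2:ℝ) ^ (-(ix p).1) * ξ))) • fib (fq (ix p) g) ξ

lemma ex_add (k : ℤ) (x y : ℝ) : ex k (x + y) = ex k x * ex k y := by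
  unfold ex
  rw [← Complex.exp_add]
  congr 1
  push_cast
  ring

lemma ex_conj_mul (k : ℤ) (x : ℝ) : (starRingEnd ℂ (ex k x)) * ex k x = 1 := by
  rw [mul_comm, Complex.mul_conj, Complex.normSq_eq_norm_sq, norm_ex]
  simp

lemma uu_apply {g : ℝ → ℂ} {K : ℝ} (hg : Nice g K) {ξ : ℝ} (hξ : 0 ≤ ξ) (p : PP) (k : ℕ) :
    uu g ξ p k = ((Real.sqrt ((2:ℝ) ^ (-(ix p).1)) : ℝ) : ℂ) *
      ex (ix p).2 ((2:ℝ) ^ (-(ix p).1) * k) * g ((2:ℝ) ^ (-(ix p).1) * (ξ + k)) := by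
  unfold uu
  rw [lp.coeFn_smul, Pi.smul_apply, fib_apply (dec_fq hg _) hξ, smul_eq_mul]
  unfold fq
  rw [mul_add, ex_add]
  linear_combination (((Real.sqrt ((2:ℝ) ^ (-(ix p).1)) : ℝ) : ℂ) *
      ex (ix p).2 ((2:ℝ) ^ (-(ix p).1) * k) * g ((2:ℝ) ^ (-(ix p).1) * ξ + (2:ℝ) ^ (-(ix p).1) * k)) *
      ex_conj_mul (ix p).2 ((2:ℝ) ^ (-(ix p).1) * ξ)

lemma level_diff {g : ℝ → ℂ} {K : ℝ} (hg : Nice g K) {ξ ξ' : ℝ} (hξ : 0 ≤ ξ) (hξ' : 0 ≤ ξ')
    (a : ℝ) (ha : 0 < a) (ha1 : a ≤ 1) (N : ℕ) :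
    ∑ k ∈ Finset.range N, ‖g (a * (ξ + k)) - g (a * (ξ' + k))‖ ^ 2 ≤
      2 * a * K ^ 2 * |ξ - ξ'| ^ 2 := by
  have hK := hg.pos
  have h1 : ∀ k : ℕ, ‖g (a * (ξ + k)) - g (a * (ξ' + k))‖ ≤
      (a * K * |ξ - ξ'|) * (1 / (1 + a * k)) := by
    intro k
    have hk : (0:ℝ) ≤ k := by positivity
    have hb : ∀ x ∈ Set.Ici (a * (k:ℝ)), ‖deriv g x‖ ≤ K / (1 + a * k) := by
      intro x hx
      have hx' : a * (k:ℝ) ≤ x := hx
      have hx0 : 0 ≤ x := le_trans (by positivity) hx'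
      have := hg.der x hx0
      rw [le_div_iff₀ (by positivity)]
      nlinarith [norm_nonneg (deriv g x)]
    have h2 := (convex_Ici (a * (k:ℝ))).norm_image_sub_le_of_norm_deriv_le
      (fun x _ => hg.diff x) hb (x := a * (ξ' + k)) (y := a * (ξ + k))
      (by simp only [Set.mem_Ici]; nlinarith) (by simp only [Set.mem_Ici]; nlinarith)
    refine h2.trans (le_of_eq ?_)
    have e : a * (ξ + k) - a * (ξ' + k) = a * (ξ - ξ') := by ring
    rw [e, norm_mul, Real.norm_eq_abs, Real.norm_eq_abs, abs_of_pos ha]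
    field_simp
  calc ∑ k ∈ Finset.range N, ‖g (a * (ξ + k)) - g (a * (ξ' + k))‖ ^ 2
      ≤ ∑ k ∈ Finset.range N, (a * K * |ξ - ξ'|) ^ 2 * (1 / (1 + a * k)) ^ 2 := by
        refine Finset.sum_le_sum fun k _ => ?_
        rw [← mul_pow]
        exact pow_le_pow_left₀ (norm_nonneg _) (h1 k) 2
    _ = (a * K * |ξ - ξ'|) ^ 2 * ∑ k ∈ Finset.range N, (1 / (1 + a * k)) ^ 2 := by
        rw [Finset.mul_sum]
    _ ≤ (a * K * |ξ - ξ'|) ^ 2 * (2 / a) := by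
        gcongr
        exact tele a ha ha1 N
    _ = 2 * a * K ^ 2 * |ξ - ξ'| ^ 2 := by
        field_simp

lemma norm_uu_sub {g : ℝ → ℂ} {K : ℝ} (hg : Nice g K) {ξ ξ' : ℝ} (hξ : 0 ≤ ξ) (hξ' : 0 ≤ ξ')
    (p : PP) : ‖uu g ξ p - uu g ξ' p‖ ^ 2 ≤
      (1 / 2) ^ p.1 * (2 * (1 / 2) ^ p.1 * K ^ 2 * |ξ - ξ'| ^ 2) := by
  have ea : (2:ℝ) ^ (-(ix p).1) = (1 / 2) ^ p.1 := by
    unfold ix
    simp [zpow_neg]
  set a : ℝ := (1 / 2) ^ p.1 with ha
  have ha0 : 0 < a := by positivity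
  have ha1 : a ≤ 1 := pow_le_one₀ (by norm_num) (by norm_num)
  rw [norm_sq_lp]
  refine Real.tsum_le_of_sum_range_le (fun _ => by positivity) fun N => ?_
  have h1 : ∀ k : ℕ, ‖(uu g ξ p - uu g ξ' p) k‖ ^ 2 =
      a * ‖g (a * (ξ + k)) - g (a * (ξ' + k))‖ ^ 2 := by
    intro k
    rw [lp.coeFn_sub, Pi.sub_apply, uu_apply hg hξ, uu_apply hg hξ', ea, ← mul_sub, norm_mul,
      norm_mul, norm_ex, mul_one, Complex.norm_real, mul_pow, Real.norm_eq_abs, sq_abs,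
      Real.sq_sqrt ha0.le]
  simp_rw [h1]
  rw [← Finset.mul_sum]
  gcongr
  exact level_diff hg hξ hξ' a ha0 ha1 N

lemma sum_uu_sub {g : ℝ → ℂ} {K : ℝ} (hg : Nice g K) {ξ ξ' : ℝ} (hξ : 0 ≤ ξ) (hξ' : 0 ≤ ξ')
    (s : Finset PP) : ∑ p ∈ s, ‖uu g ξ p - uu g ξ' p‖ ^ 2 ≤ (2 * K * |ξ - ξ'|) ^ 2 := by
  classical
  obtain ⟨N, hN⟩ : ∃ N : ℕ, ∀ p ∈ s, p.1 < N := by
    refine ⟨s.sup (fun p => p.1) + 1, fun p hp => ?_⟩
    have := Finset.le_sup (f := fun p : PP => p.1) hp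
    omega
  have hsub : s ⊆ (Finset.range N).sigma (fun n => (Finset.univ : Finset (Fin (2 ^ n)))) := by
    intro p hp
    rw [Finset.mem_sigma]
    exact ⟨Finset.mem_range.2 (hN p hp), Finset.mem_univ _⟩
  calc ∑ p ∈ s, ‖uu g ξ p - uu g ξ' p‖ ^ 2
      ≤ ∑ p ∈ (Finset.range N).sigma (fun n => (Finset.univ : Finset (Fin (2 ^ n)))),
          ‖uu g ξ p - uu g ξ' p‖ ^ 2 :=
        Finset.sum_le_sum_of_subset_of_nonneg hsub fun _ _ _ => by positivity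
    _ = ∑ n ∈ Finset.range N, ∑ i : Fin (2 ^ n), ‖uu g ξ ⟨n, i⟩ - uu g ξ' ⟨n, i⟩‖ ^ 2 := by
        rw [Finset.sum_sigma]
    _ ≤ ∑ n ∈ Finset.range N, ∑ _i : Fin (2 ^ n),
          (1 / 2) ^ n * (2 * (1 / 2) ^ n * K ^ 2 * |ξ - ξ'| ^ 2) := by
        refine Finset.sum_le_sum fun n _ => Finset.sum_le_sum fun i _ => ?_
        exact norm_uu_sub hg hξ hξ' ⟨n, i⟩
    _ = (∑ n ∈ Finset.range N, (1 / 2 : ℝ) ^ n) * (2 * K ^ 2 * |ξ - ξ'| ^ 2) := by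
        rw [Finset.sum_mul]
        refine Finset.sum_congr rfl fun n _ => ?_
        rw [Finset.sum_const, Finset.card_univ, Fintype.card_fin, nsmul_eq_mul]
        have : (((2 ^ n : ℕ) : ℝ)) * (1 / 2) ^ n = 1 := by
          push_cast
          rw [← mul_pow]; norm_num
        linear_combination (2 * (1 / 2) ^ n * K ^ 2 * |ξ - ξ'| ^ 2) * this
    _ ≤ 2 * (2 * K ^ 2 * |ξ - ξ'| ^ 2) := by
        gcongr
        exact sum_geometric_two_le N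
    _ = (2 * K * |ξ - ξ'|) ^ 2 := by ring

end Pool.Agent.Helper704.HW
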