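import Mathlib
set_option autoImplicit false
open MeasureTheory
open scoped ENNReal

namespace Pool.Agent.Helper704.HW

lemma iUnion_Ico_nat : (⋃ k : ℕ, Set.Ico (k : ℝ) (k + 1)) = Set.Ici 0 := by
  ext x
  simp only [Set.mem_iUnion, Set.mem_Ico, Set.mem_Ici]
  constructor
  · rintro ⟨k, h1, _⟩
    have : (0:ℝ) ≤ k := by positivity
    linarith
  · intro hx
    exact ⟨⌊x⌋₊, Nat.floor_le hx, Nat.lt_floor_add_one x⟩

lemma disj_Ico_nat : Pairwise (Function.onFun Disjoint fun k : ℕ => Set.Ico (k : ℝ) (k + 1)) := by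
  intro i j hij
  rw [Function.onFun, Set.disjoint_left]
  rintro x ⟨h1, h2⟩ ⟨h3, h4⟩
  apply hij
  have h5 : (i : ℝ) < j + 1 := by linarith
  have h6 : (j : ℝ) < i + 1 := by linarith
  have h7 : i < j + 1 := by exact_mod_cast h5
  have h8 : j < i + 1 := by exact_mod_cast h6
  omega

lemma pre_Ico (k : ℕ) : (fun x : ℝ => x + k) ⁻¹' (Set.Ico (k : ℝ) (k + 1)) = Set.Ico 0 1 := by
  ext x
  simp only [Set.mem_preimage, Set.mem_Ico]
  constructor <;> rintro ⟨h1, h2⟩ <;> constructor <;> linarith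

lemma lunf (Φ : ℝ → ℝ≥0∞) (hm : Measurable Φ) (h0 : ∀ x < 0, Φ x = 0) :
    ∫⁻ x, Φ x = ∫⁻ ξ in Set.Ico (0:ℝ) 1, ∑' k : ℕ, Φ (ξ + k) := by
  have h1 : ∫⁻ x, Φ x = ∫⁻ x in Set.Ici (0:ℝ), Φ x := by
    rw [← lintegral_indicator measurableSet_Ici]
    congr 1
    funext x
    by_cases hx : x ∈ Set.Ici (0:ℝ)
    · rw [Set.indicator_of_mem hx]
    · rw [Set.indicator_of_notMem hx, h0 x (not_le.1 hx)]
  rw [h1, ← iUnion_Ico_nat, lintegral_iUnion (fun _ => measurableSet_Ico) disj_Ico_nat,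
    lintegral_tsum]
  · congr 1
    funext k
    rw [← (measurePreserving_add_right (volume : Measure ℝ) (k : ℝ)).setLIntegral_comp_preimage_emb
      (measurableEmbedding_addRight (k : ℝ)) Φ (Set.Ico (k : ℝ) (k + 1)), pre_Ico]
  · intro k
    exact (hm.comp (measurable_id.add_const _)).aemeasurable

lemma setInt_shift {G : Type*} [NormedAddCommGroup G] [NormedSpace ℝ G] (Ψ : ℝ → G) (k : ℕ) :
    ∫ x in Set.Ico (k : ℝ) (k + 1), Ψ x = ∫ ξ in Set.Ico (0:ℝ) 1, Ψ (ξ + k) := by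
  rw [← (measurePreserving_add_right (volume : Measure ℝ) (k : ℝ)).setIntegral_preimage_emb
    (measurableEmbedding_addRight (k : ℝ)) Ψ (Set.Ico (k : ℝ) (k + 1)), pre_Ico]

lemma unf {E : Type*} [NormedAddCommGroup E] [NormedSpace ℝ E] [CompleteSpace E] (Φ : ℝ → E)
    (hi : Integrable Φ) (h0 : ∀ x < 0, Φ x = 0) :
    ∫ x, Φ x = ∫ ξ in Set.Ico (0:ℝ) 1, ∑' k : ℕ, Φ (ξ + k) := by
  have h1 : ∫ x, Φ x = ∫ x in Set.Ici (0:ℝ), Φ x := by
    rw [← integral_indicator measurableSet_Ici]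
    congr 1
    funext x
    by_cases hx : x ∈ Set.Ici (0:ℝ)
    · rw [Set.indicator_of_mem hx]
    · rw [Set.indicator_of_notMem hx, h0 x (not_le.1 hx)]
  have h2 := hasSum_integral_iUnion (f := Φ) (μ := volume) (fun k : ℕ => measurableSet_Ico)
    disj_Ico_nat (by rw [iUnion_Ico_nat]; exact hi.integrableOn)
  have h3 := hasSum_integral_iUnion (f := fun x => ‖Φ x‖) (μ := volume)
    (fun k : ℕ => measurableSet_Ico)
    disj_Ico_nat (by rw [iUnion_Ico_nat]; exact hi.norm.integrableOn)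
  have h4 : ∀ k : ℕ, IntegrableOn (fun ξ => Φ (ξ + k)) (Set.Ico (0:ℝ) 1) := by
    intro k
    exact (hi.comp_add_right (k : ℝ)).integrableOn
  have h5 : Summable (fun k : ℕ => ∫ ξ in Set.Ico (0:ℝ) 1, ‖Φ (ξ + k)‖) := by
    have := h3.summable
    refine this.congr fun k => ?_
    exact setInt_shift (fun x => ‖Φ x‖) k
  have h6 := hasSum_integral_of_summable_integral_norm h4 h5
  rw [h1, ← iUnion_Ico_nat]
  refine h2.unique ?_
  convert h6 using 2 with k
  exact setInt_shift Φ k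

end Pool.Agent.Helper704.HW
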