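import Mathlib
import Pool.Agent.Helper704.RW.Basis
import Pool.Agent.Helper704.RW.Main
import Pool.Agent.Helper704.HW.Abs
import Pool.Agent.Helper704.HW.Unfold
import Pool.Agent.Helper704.HW.Fib
set_option autoImplicit false
open MeasureTheory
open scoped ENNReal
open Pool.Agent.Helper704 Pool.Agent.Helper704.RW

namespace Pool.Agent.Helper704.HW

lemma continuous_ex (k : ℤ) : Continuous (ex k) := by unfold ex; fun_prop

lemma integral_ex01 (k : ℤ) : ∫ η in Set.Ico (0:ℝ) 1, ex k η = if k = 0 then 1 else 0 := by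
  rw [integral_Ico_eq_integral_Ioc, ← intervalIntegral.integral_of_le (by norm_num)]
  by_cases hk : k = 0
  · subst hk
    simp [ex]
  · rw [if_neg hk]
    have hc : (-2 * Real.pi * k * Complex.I : ℂ) ≠ 0 := by
      have : (Real.pi : ℂ) ≠ 0 := by exact_mod_cast Real.pi_ne_zero
      have : (k : ℂ) ≠ 0 := by exact_mod_cast hk
      simp [*]
    have h1 : ∀ x : ℝ, ex k x = Complex.exp ((-2 * Real.pi * k * Complex.I : ℂ) * x) := by
      intro x; unfold ex; congr 1; push_cast; ring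
    simp_rw [h1]
    rw [integral_exp_mul_complex hc]
    have h2 : Complex.exp ((-2 * Real.pi * k * Complex.I : ℂ) * ((1 : ℝ) : ℂ)) =
        Complex.exp ((-2 * Real.pi * k * Complex.I : ℂ) * ((0 : ℝ) : ℂ)) := by
      have : ((-2 * Real.pi * k * Complex.I : ℂ) * ((1 : ℝ) : ℂ)) =
          ((-2 * Real.pi * k * Complex.I : ℂ) * ((0 : ℝ) : ℂ)) +
            ((-k : ℤ) : ℂ) * (2 * Real.pi * Complex.I) := by push_cast; ring
      rw [this, Complex.exp_add, Complex.exp_int_mul_two_pi_mul_I, mul_one]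
    rw [h2]; simp

/-- trigonometric polynomial -/
noncomputable def tp (t : Finset ℤ) (a : ℤ → ℂ) (x : ℝ) : ℂ := ∑ l ∈ t, a l * ex l x

lemma continuous_tp (t : Finset ℤ) (a : ℤ → ℂ) : Continuous (tp t a) := by
  unfold tp
  exact continuous_finsetSum _ fun l _ => continuous_const.mul (continuous_ex l)

lemma ex_add_nat (k : ℤ) (η : ℝ) (l : ℕ) : ex k (η + l) = ex k η := by
  have := ex_add_int k η (l : ℤ)
  push_cast at this
  exact this

lemma tp_add_nat (t : Finset ℤ) (a : ℤ → ℂ) (x : ℝ) (k : ℕ) : tp t a (x + k) = tp t a x := by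
  unfold tp
  simp_rw [ex_add_nat]

lemma ex_conj (k : ℤ) (x : ℝ) : (starRingEnd ℂ) (ex k x) = ex (-k) x := by
  unfold ex
  rw [← Complex.exp_conj]
  congr 1
  rw [map_mul, Complex.conj_I, Complex.conj_ofReal]
  push_cast; ring

lemma ex_mul (k l : ℤ) (x : ℝ) : ex k x * ex l x = ex (k + l) x := by
  unfold ex
  rw [← Complex.exp_add]
  congr 1
  push_cast
  ring

lemma parseval_tp (t : Finset ℤ) (a : ℤ → ℂ) :
    ∫ ξ in Set.Ico (0:ℝ) 1, ‖tp t a ξ‖ ^ 2 = ∑ l ∈ t, ‖a l‖ ^ 2 := by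
  have hint : ∀ k : ℤ, IntegrableOn (ex k) (Set.Ico (0:ℝ) 1) := fun k =>
    ((continuous_ex k).integrableOn_Icc (a := 0) (b := 1)).mono_set Set.Ico_subset_Icc_self
  have h1 : ∀ ξ : ℝ, ((‖tp t a ξ‖ ^ 2 : ℝ) : ℂ) =
      ∑ l ∈ t, ∑ m ∈ t, (starRingEnd ℂ (a l) * a m) * ex (m - l) ξ := by
    intro ξ
    have : ((‖tp t a ξ‖ ^ 2 : ℝ) : ℂ) = (starRingEnd ℂ (tp t a ξ)) * tp t a ξ := by
      rw [mul_comm, Complex.mul_conj, Complex.normSq_eq_norm_sq]
    rw [this]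
    unfold tp
    rw [map_sum, Finset.sum_mul_sum]
    refine Finset.sum_congr rfl fun l _ => Finset.sum_congr rfl fun m _ => ?_
    rw [map_mul, ex_conj]
    have := ex_mul (-l) m ξ
    have e : -l + m = m - l := by ring
    rw [e] at this
    rw [← this]; ring
  have h2 : ((∫ ξ in Set.Ico (0:ℝ) 1, ‖tp t a ξ‖ ^ 2 : ℝ) : ℂ) = ((∑ l ∈ t, ‖a l‖ ^ 2 : ℝ) : ℂ) := by
    rw [← integral_complex_ofReal]
    simp_rw [h1]
    rw [integral_finsetSum]
    swap
    · intro l _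
      exact integrable_finsetSum _ fun m _ => (hint _).const_mul _
    push_cast
    refine Finset.sum_congr rfl fun l hl => ?_
    rw [integral_finsetSum _ (fun m _ => (hint _).const_mul _)]
    simp_rw [integral_const_mul, integral_ex01]
    rw [Finset.sum_eq_single l]
    · simp only [sub_self, if_true, mul_one]
      rw [mul_comm, Complex.mul_conj, Complex.normSq_eq_norm_sq]
      push_cast; rfl
    · intro m _ hm
      rw [if_neg (sub_ne_zero.2 hm), mul_zero]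
    · intro h; exact (h hl).elim
  exact_mod_cast h2

/-- reindexed lower bound -/
lemma lower_reindex {H : Type*} [NormedAddCommGroup H] [InnerProductSpace ℂ H] {κ ι : Type*}
    (e : κ → H) (A : ℝ)
    (hR : ∀ (s : Finset κ) (c : κ → ℂ), A * ∑ p ∈ s, ‖c p‖ ^ 2 ≤ ‖∑ p ∈ s, c p • e p‖ ^ 2)
    (τ : ι → κ) (hτ : Function.Injective τ) (S : Finset ι) (d : ι → ℂ) :
    A * ∑ x ∈ S, ‖d x‖ ^ 2 ≤ ‖∑ x ∈ S, d x • e (τ x)‖ ^ 2 := by
  classical
  have h := hR (S.map ⟨τ, hτ⟩) (Function.extend τ d 0)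
  rw [Finset.sum_map, Finset.sum_map] at h
  simpa [hτ.extend_apply] using h

lemma coeFn_sum' {ι : Type*} {F : ι → ℝ → ℂ} (hF : ∀ p, MemLp (F p) 2 volume) (s : Finset ι)
    (c : ι → ℂ) :
    ((∑ p ∈ s, c p • (hF p).toLp (F p) : HH) : ℝ → ℂ) =ᵐ[volume] fun ξ => ∑ p ∈ s, c p * F p ξ := by
  classical
  induction s using Finset.induction_on with
  | empty =>
    simp only [Finset.sum_empty]
    exact Lp.coeFn_zero ℂ 2 (volume : Measure ℝ)
  | insert p s hp ih =>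
    rw [Finset.sum_insert hp]
    filter_upwards [Lp.coeFn_add (c p • (hF p).toLp (F p)) (∑ p ∈ s, c p • (hF p).toLp (F p)), ih,
      Lp.coeFn_smul (c p) ((hF p).toLp (F p)), (hF p).coeFn_toLp] with ξ h1 h2 h3 h4
    rw [h1, Pi.add_apply, h2, h3, Pi.smul_apply, h4, Finset.sum_insert hp, smul_eq_mul]

lemma norm_sq_eq (x : HH) : ‖x‖ ^ 2 = ∫ ξ, ‖(x : ℝ → ℂ) ξ‖ ^ 2 := by
  have := norm_sq_toLp (x : ℝ → ℂ) (Lp.memLp x)
  rw [Lp.toLp_coeFn] at this
  exact this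

/-- the shift of the index of a level by a multiple of the level -/
def sh (q : PP × ℤ) : ℤ × ℤ := ((ix q.1).1, (ix q.1).2 + 2 ^ q.1.1 * q.2)

lemma sh_inj : Function.Injective sh := by
  rintro ⟨⟨n, i⟩, l⟩ ⟨⟨n', i'⟩, l'⟩ h
  have h1 := congrArg Prod.fst h
  have h2 := congrArg Prod.snd h
  simp only [sh, ix] at h1 h2
  have h3 : n = n' := by exact_mod_cast h1
  subst h3
  have hi : ((i : ℕ) : ℤ) < 2 ^ n := by exact_mod_cast i.2
  have hi' : ((i' : ℕ) : ℤ) < 2 ^ n := by exact_mod_cast i'.2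
  have hl : l = l' := by
    have e1 : (((i : ℕ) : ℤ) + 2 ^ n * l) / 2 ^ n = (((i' : ℕ) : ℤ) + 2 ^ n * l') / 2 ^ n := by
      rw [h2]
    rw [Int.add_mul_ediv_left _ _ (by positivity), Int.add_mul_ediv_left _ _ (by positivity),
      Int.ediv_eq_zero_of_lt (by positivity) hi, Int.ediv_eq_zero_of_lt (by positivity) hi'] at e1
    simpa using e1
  subst hl
  have h4 : ((i : ℕ) : ℤ) = ((i' : ℕ) : ℤ) := by linarith
  have h5 : i = i' := Fin.ext (by exact_mod_cast h4)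
  rw [h5]

lemma fq_sh (g : ℝ → ℂ) (q : PP × ℤ) (x : ℝ) : fq (sh q) g x = ex q.2 x * fq (ix q.1) g x := by
  unfold fq sh ix
  simp only
  have h : ex (((q.1.2 : ℕ) : ℤ) + 2 ^ q.1.1 * q.2) ((2:ℝ) ^ (-(q.1.1 : ℤ)) * x) =
      ex q.2 x * ex ((q.1.2 : ℕ) : ℤ) ((2:ℝ) ^ (-(q.1.1 : ℤ)) * x) := by
    unfold ex
    rw [← Complex.exp_add]
    congr 1
    have h3 : ((2:ℂ) ^ q.1.1) * ((2:ℂ) ^ (-(q.1.1 : ℤ))) = 1 := by
      rw [zpow_neg, zpow_natCast, mul_inv_cancel₀ (pow_ne_zero _ two_ne_zero)]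
    push_cast
    linear_combination (-2 * Real.pi * q.2 * x * Complex.I) * h3
  rw [h]; ring

lemma dec_sum {ι : Type*} {F : ι → ℝ → ℂ} (hF : ∀ p, Dec (F p)) (s : Finset ι) (c : ι → ℂ) :
    Dec (fun x => ∑ p ∈ s, c p * F p x) := by
  classical
  induction s using Finset.induction_on with
  | empty => exact ⟨1, one_pos, fun x _ => by simp⟩
  | insert p s hp ih =>
    obtain ⟨K1, hK1, h1⟩ := hF p
    obtain ⟨K2, hK2, h2⟩ := ih
    refine ⟨‖c p‖ * K1 + K2, by positivity, fun x hx => ?_⟩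
    have a1 := h1 x hx
    have a2 := h2 x hx
    have e : (fun x => ∑ p ∈ insert p s, c p * F p x) x = c p * F p x + ∑ p ∈ s, c p * F p x := by
      simp only
      rw [Finset.sum_insert hp]
    rw [e]
    calc ‖c p * F p x + ∑ p ∈ s, c p * F p x‖ * (1 + x)
        ≤ (‖c p‖ * ‖F p x‖ + ‖∑ p ∈ s, c p * F p x‖) * (1 + x) := by
          gcongr
          refine (norm_add_le _ _).trans ?_
          rw [norm_mul]
      _ = ‖c p‖ * (‖F p x‖ * (1 + x)) + ‖∑ p ∈ s, c p * F p x‖ * (1 + x) := by ring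
      _ ≤ ‖c p‖ * K1 + K2 := by gcongr

lemma fib_sum {ι : Type*} {F : ι → ℝ → ℂ} (hF : ∀ p, Dec (F p)) (s : Finset ι) (c : ι → ℂ)
    {ξ : ℝ} (hξ : 0 ≤ ξ) :
    ∑ p ∈ s, c p • fib (F p) ξ = fib (fun x => ∑ p ∈ s, c p * F p x) ξ := by
  ext k
  rw [fib_apply (dec_sum hF s c) hξ]
  rw [lp.coeFn_sum, Finset.sum_apply]
  refine Finset.sum_congr rfl fun p _ => ?_
  rw [lp.coeFn_smul, Pi.smul_apply, fib_apply (hF p) hξ, smul_eq_mul]

lemma fib_eq_uu {g : ℝ → ℂ} (ξ : ℝ) (p : PP) :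
    fib (fq (ix p) g) ξ = ex (ix p).2 ((2:ℝ) ^ (-(ix p).1) * ξ) • uu g ξ p := by
  unfold uu
  rw [smul_smul, mul_comm, ex_conj_mul, one_smul]

lemma continuousOn_uu {g : ℝ → ℂ} {K : ℝ} (hg : Nice g K) (p : PP) :
    ContinuousOn (fun ξ => uu g ξ p) (Set.Icc 0 1) := by
  have h : LipschitzOnWith (Real.toNNReal (2 * K)) (fun ξ => uu g ξ p) (Set.Icc 0 1) := by
    have hK := hg.pos
    apply LipschitzOnWith.of_dist_le_mul
    intro x hx y hy
    rw [dist_eq_norm, Real.dist_eq, Real.coe_toNNReal _ (by positivity)]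
    have := sum_uu_sub hg hx.1 hy.1 {p}
    rw [Finset.sum_singleton] at this
    exact abs_le_of_sq_le_sq' this (by positivity) |>.2
  exact h.continuousOn

lemma continuousOn_fib {g : ℝ → ℂ} {K : ℝ} (hg : Nice g K) (p : PP) :
    ContinuousOn (fun ξ => fib (fq (ix p) g) ξ) (Set.Icc 0 1) := by
  simp_rw [fib_eq_uu]
  apply ContinuousOn.fun_smul
  · apply Continuous.continuousOn
    exact (continuous_ex _).comp (continuous_const.mul continuous_id)
  · exact continuousOn_uu hg p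

end Pool.Agent.Helper704.HW
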