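import Mathlib
import Pool.Agent.Helper704.HW.Low
set_option autoImplicit false
open MeasureTheory Filter Topology
open scoped ENNReal
open Pool.Agent.Helper704 Pool.Agent.Helper704.RW

namespace Pool.Agent.Helper704.HW

lemma fq_neg {g : ℝ → ℂ} {K : ℝ} (hg : Nice g K) (p : ℤ × ℤ) (x : ℝ) (hx : x ≤ 0) :
    fq p g x = 0 := by
  unfold fq
  rw [hg.zero]
  · simp
  · have : (0:ℝ) < 2 ^ (-p.1) := by positivity
    nlinarith

lemma energy' {g : ℝ → ℂ} {K : ℝ} (hg : Nice g K) (hgL : MemLp g 2 volume) (s : Finset PP)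
    (c : PP → ℂ) (t : Finset ℤ) (a : ℤ → ℂ) :
    ‖∑ q ∈ s ×ˢ t, (c q.1 * a q.2) • (memLp_fq (sh q) hgL).toLp (fq (sh q) g)‖ ^ 2 =
      ∫ ξ in Set.Ico (0:ℝ) 1, ‖tp t a ξ‖ ^ 2 * ‖∑ p ∈ s, c p • fib (fq (ix p) g) ξ‖ ^ 2 := by
  set F : ℝ → ℂ := fun x => ∑ p ∈ s, c p * fq (ix p) g x with hF
  have hFm : MemLp (fun x => tp t a x * F x) 2 volume := by
    have h1 : (fun x => tp t a x * F x) =
        fun x => ∑ q ∈ s ×ˢ t, (c q.1 * a q.2) * fq (sh q) g x := by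
      funext x
      rw [hF]
      unfold tp
      simp only
      rw [mul_comm, Finset.sum_mul_sum, Finset.sum_product]
      refine Finset.sum_congr rfl fun p _ => Finset.sum_congr rfl fun l _ => ?_
      rw [fq_sh]; ring
    rw [h1]
    exact memLp_finsetSum _ fun q _ => (memLp_fq (sh q) hgL).const_mul _
  rw [norm_sq_eq]
  have h1 : ∫ x, ‖((∑ q ∈ s ×ˢ t, (c q.1 * a q.2) •
      (memLp_fq (sh q) hgL).toLp (fq (sh q) g) : HH) : ℝ → ℂ) x‖ ^ 2 =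
      ∫ x, ‖tp t a x * F x‖ ^ 2 := by
    apply integral_congr_ae
    filter_upwards [coeFn_sum' (fun q : PP × ℤ => memLp_fq (sh q) hgL) (s ×ˢ t)
      (fun q => c q.1 * a q.2)] with x hx
    rw [hx]
    congr 2
    rw [hF]
    unfold tp
    simp only
    rw [mul_comm, Finset.sum_mul_sum, Finset.sum_product]
    refine Finset.sum_congr rfl fun p _ => Finset.sum_congr rfl fun l _ => ?_
    rw [fq_sh]; ring
  rw [h1, unf (fun x => ‖tp t a x * F x‖ ^ 2) ((memLp_two_iff_integrable_sq_norm hFm.1).1 hFm)]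
  · apply setIntegral_congr_fun measurableSet_Ico
    intro ξ hξ
    have hξ0 : 0 ≤ ξ := hξ.1
    simp only
    rw [fib_sum (fun p => dec_fq hg _) s c hξ0, norm_fib (dec_sum (fun p => dec_fq hg _) s c) hξ0,
      ← tsum_mul_left]
    congr 1
    funext k
    rw [tp_add_nat, norm_mul, mul_pow]
  · intro x hx
    have : F x = 0 := by
      rw [hF]
      exact Finset.sum_eq_zero fun p _ => by rw [fq_neg hg _ x hx.le, mul_zero]
    rw [this]; simp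

/-- The powers of the Fejer type kernel. -/
lemma kernel (ξ₀ : ℝ) (n : ℕ) : ∃ (t : Finset ℤ) (a : ℤ → ℂ), ∀ ξ : ℝ,
    ‖tp t a ξ‖ ^ 2 = (Real.cos (Real.pi * (ξ - ξ₀)) ^ 2) ^ n := by
  classical
  refine ⟨(Finset.range (n + 1)).map ⟨fun k : ℕ => (k : ℤ), Nat.cast_injective⟩,
    fun l => (1 / 2) ^ n * (n.choose l.toNat : ℂ) * ex l (-ξ₀), fun ξ => ?_⟩
  have h1 : tp ((Finset.range (n + 1)).map ⟨fun k : ℕ => (k : ℤ), Nat.cast_injective⟩)
      (fun l => (1 / 2) ^ n * (n.choose l.toNat : ℂ) * ex l (-ξ₀)) ξ =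
      ((1 + ex 1 (ξ - ξ₀)) / 2) ^ n := by
    have h0 : ((1 + ex 1 (ξ - ξ₀)) / 2) ^ n = (ex 1 (ξ - ξ₀) + 1) ^ n * (1 / 2) ^ n := by
      rw [← mul_pow]; congr 1; ring
    unfold tp
    rw [Finset.sum_map, h0, add_pow, Finset.sum_mul]
    refine Finset.sum_congr rfl fun k _ => ?_
    simp only [Function.Embedding.coeFn_mk, Int.toNat_natCast, one_pow, mul_one]
    have h2 : ex 1 (ξ - ξ₀) ^ k = ex k (-ξ₀) * ex k ξ := by
      unfold ex
      rw [← Complex.exp_nat_mul, ← Complex.exp_add]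
      congr 1
      push_cast
      ring
    rw [h2]; ring
  rw [h1, norm_pow, ← pow_mul, mul_comm n 2, pow_mul]
  congr 1
  have h2 : 1 + ex 1 (ξ - ξ₀) = 2 * (Real.cos (Real.pi * (ξ - ξ₀)) : ℂ) *
      Complex.exp (((-Real.pi * (ξ - ξ₀) : ℝ) : ℂ) * Complex.I) := by
    unfold ex
    rw [Complex.ofReal_cos, Complex.two_cos, add_mul, ← Complex.exp_add, ← Complex.exp_add]
    congr 1
    · rw [← Complex.exp_zero]; congr 1; push_cast; ring
    · congr 1; push_cast; ring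
  rw [h2, norm_div, norm_mul, norm_mul, Complex.norm_exp_ofReal_mul_I, Complex.norm_real]
  simp

theorem lower_fib {g : ℝ → ℂ} {K : ℝ} (hg : Nice g K) (hgL : MemLp g 2 volume) (A : ℝ)
    (hR : ∀ (s : Finset (ℤ × ℤ)) (c : ℤ × ℤ → ℂ), A * ∑ p ∈ s, ‖c p‖ ^ 2 ≤
      ‖∑ p ∈ s, c p • (memLp_fq p hgL).toLp (fq p g)‖ ^ 2)
    (ξ₀ : ℝ) (hξ₀ : ξ₀ ∈ Set.Ioo (0:ℝ) 1) (s : Finset PP) (c : PP → ℂ) :
    A * ∑ p ∈ s, ‖c p‖ ^ 2 ≤ ‖∑ p ∈ s, c p • fib (fq (ix p) g) ξ₀‖ ^ 2 := by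
  set E : ℝ → ℝ := fun ξ => ‖∑ p ∈ s, c p • fib (fq (ix p) g) ξ‖ ^ 2 with hE
  have hEc : ContinuousOn E (Set.Icc 0 1) := by
    apply ContinuousOn.pow
    apply ContinuousOn.norm
    exact continuousOn_finsetSum _ fun p _ => (continuousOn_fib hg p).fun_const_smul _
  set κ : ℝ → ℝ := fun ξ => Real.cos (Real.pi * (ξ - ξ₀)) ^ 2 with hκ
  have hκc : Continuous κ := by fun_prop
  have hκ0 : κ ξ₀ = 1 := by simp [hκ]
  have hpeak := tendsto_setIntegral_pow_smul_of_unique_maximum_of_isCompact_of_continuousOn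
    (μ := (volume : Measure ℝ)) (s := Set.Icc (0:ℝ) 1) (x₀ := ξ₀) isCompact_Icc
    (c := κ) (g := E) hκc.continuousOn ?_ (fun x _ => by positivity) (by rw [hκ0]; norm_num) ?_ hEc
  · have hle : ∀ n : ℕ, A * ∑ p ∈ s, ‖c p‖ ^ 2 ≤
        (∫ x in Set.Icc (0:ℝ) 1, κ x ^ n)⁻¹ • ∫ x in Set.Icc (0:ℝ) 1, κ x ^ n • E x := by
      intro n
      obtain ⟨t, a, hta⟩ := kernel ξ₀ n
      have h1 := lower_reindex (fun p => (memLp_fq p hgL).toLp (fq p g)) A hR sh sh_inj (s ×ˢ t)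
        (fun q => c q.1 * a q.2)
      rw [energy' hg hgL s c t a] at h1
      have h2 : ∑ x ∈ s ×ˢ t, ‖c x.1 * a x.2‖ ^ 2 = (∑ p ∈ s, ‖c p‖ ^ 2) * ∑ l ∈ t, ‖a l‖ ^ 2 := by
        rw [Finset.sum_mul_sum, Finset.sum_product]
        refine Finset.sum_congr rfl fun p _ => Finset.sum_congr rfl fun l _ => ?_
        rw [norm_mul, mul_pow]
      rw [h2, ← parseval_tp] at h1
      simp_rw [hta] at h1
      rw [← integral_Icc_eq_integral_Ico, ← integral_Icc_eq_integral_Ico] at h1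
      have hpos : 0 < ∫ x in Set.Icc (0:ℝ) 1, κ x ^ n := by
        have hint : IntegrableOn (fun x => κ x ^ n) (Set.Icc (0:ℝ) 1) :=
          (hκc.pow n).continuousOn.integrableOn_compact isCompact_Icc
        rw [setIntegral_pos_iff_support_of_nonneg_ae (Eventually.of_forall fun x => by positivity)
          hint]
        have hopen : IsOpen (Function.support (fun x => κ x ^ n) ∩ Set.Ioo (0:ℝ) 1) :=
          (((hκc.pow n).isOpen_support)).inter isOpen_Ioo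
        have hne : (Function.support (fun x => κ x ^ n) ∩ Set.Ioo (0:ℝ) 1).Nonempty :=
          ⟨ξ₀, by rw [Function.mem_support, hκ0]; simp, hξ₀⟩
        refine lt_of_lt_of_le (hopen.measure_pos volume hne) (measure_mono ?_)
        exact Set.inter_subset_inter_right _ Set.Ioo_subset_Icc_self
      rw [smul_eq_mul, inv_mul_eq_div, le_div_iff₀ hpos]
      calc A * (∑ p ∈ s, ‖c p‖ ^ 2) * ∫ x in Set.Icc (0:ℝ) 1, κ x ^ n
          = A * ((∑ p ∈ s, ‖c p‖ ^ 2) * ∫ x in Set.Icc (0:ℝ) 1, κ x ^ n) := by ring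
        _ ≤ _ := h1
    exact ge_of_tendsto' hpeak hle
  · intro y hy hyne
    rw [hκ0]
    have h1 : |Real.pi * (y - ξ₀)| < Real.pi := by
      rw [abs_mul, abs_of_pos Real.pi_pos]
      have : |y - ξ₀| < 1 := by
        rw [abs_lt]
        constructor <;> linarith [hy.1, hy.2, hξ₀.1, hξ₀.2]
      nlinarith [Real.pi_pos]
    have h2 : Real.sin (Real.pi * (y - ξ₀)) ≠ 0 := by
      intro h0
      rw [Real.sin_eq_zero_iff_of_lt_of_lt (abs_lt.1 h1).1 (abs_lt.1 h1).2] at h0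
      rcases mul_eq_zero.1 h0 with h | h
      · exact Real.pi_ne_zero h
      · exact hyne (sub_eq_zero.1 h)
    have h3 := Real.sin_sq_add_cos_sq (Real.pi * (y - ξ₀))
    have h4 : 0 < Real.sin (Real.pi * (y - ξ₀)) ^ 2 := by positivity
    simp only [hκ]
    linarith
  · rw [interior_Icc, closure_Ioo (by norm_num)]
    exact ⟨hξ₀.1.le, hξ₀.2.le⟩

theorem lower_uu {g : ℝ → ℂ} {K : ℝ} (hg : Nice g K) (hgL : MemLp g 2 volume) (A : ℝ)
    (hR : ∀ (s : Finset (ℤ × ℤ)) (c : ℤ × ℤ → ℂ), A * ∑ p ∈ s, ‖c p‖ ^ 2 ≤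
      ‖∑ p ∈ s, c p • (memLp_fq p hgL).toLp (fq p g)‖ ^ 2)
    (ξ : ℝ) (hξ : ξ ∈ Set.Icc (0:ℝ) 1) (s : Finset PP) (c : PP → ℂ) :
    A * ∑ p ∈ s, ‖c p‖ ^ 2 ≤ ‖∑ p ∈ s, c p • uu g ξ p‖ ^ 2 := by
  have h1 : ∀ ξ₀ ∈ Set.Ioo (0:ℝ) 1, A * ∑ p ∈ s, ‖c p‖ ^ 2 ≤ ‖∑ p ∈ s, c p • uu g ξ₀ p‖ ^ 2 := by
    intro ξ₀ hξ₀
    have h2 := lower_fib hg hgL A hR ξ₀ hξ₀ s
      (fun p => c p * (starRingEnd ℂ (ex (ix p).2 ((2:ℝ) ^ (-(ix p).1) * ξ₀))))
    have h3 : ∑ p ∈ s, ‖c p * (starRingEnd ℂ (ex (ix p).2 ((2:ℝ) ^ (-(ix p).1) * ξ₀)))‖ ^ 2 =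
        ∑ p ∈ s, ‖c p‖ ^ 2 := by
      refine Finset.sum_congr rfl fun p _ => ?_
      rw [norm_mul, RCLike.norm_conj, norm_ex, mul_one]
    rw [h3] at h2
    convert h2 using 3
    refine Finset.sum_congr rfl fun p _ => ?_
    unfold uu
    rw [smul_smul]
  have hc : ContinuousOn (fun ξ => ‖∑ p ∈ s, c p • uu g ξ p‖ ^ 2) (closure (Set.Ioo (0:ℝ) 1)) := by
    rw [closure_Ioo (by norm_num)]
    apply ContinuousOn.pow
    apply ContinuousOn.norm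
    exact continuousOn_finsetSum _ fun p _ => (continuousOn_uu hg p).fun_const_smul _
  exact le_on_closure h1 continuousOn_const hc (by rw [closure_Ioo (by norm_num)]; exact hξ)

end Pool.Agent.Helper704.HW
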