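import Mathlib
import Pool.Agent.Helper704.HW.Low2
set_option autoImplicit false
open MeasureTheory Filter Topology
open scoped ENNReal
open Pool.Agent.Helper704 Pool.Agent.Helper704.RW

namespace Pool.Agent.Helper704.HW

/-- The test function with constant fibre on an interval. -/
noncomputable def hh (ε : ℝ) (v : L) (x : ℝ) : ℂ :=
  if 0 ≤ x ∧ Int.fract x < ε then v ⌊x⌋₊ else 0

lemma hh_neg (ε : ℝ) (v : L) {x : ℝ} (hx : x < 0) : hh ε v x = 0 := by
  unfold hh
  rw [if_neg]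
  rintro ⟨h, _⟩
  linarith

lemma hh_apply (ε : ℝ) (v : L) {ξ : ℝ} (hξ : ξ ∈ Set.Ico (0:ℝ) 1) (k : ℕ) :
    hh ε v (ξ + k) = if ξ < ε then v k else 0 := by
  have h1 : Int.fract (ξ + k) = ξ := by
    rw [Int.fract_add_natCast, Int.fract_eq_self.2 hξ]
  have h2 : ⌊ξ + k⌋₊ = k := by
    rw [Nat.floor_add_natCast hξ.1, Nat.floor_eq_zero.2 hξ.2, zero_add]
  have h3 : 0 ≤ ξ + k := add_nonneg hξ.1 (by positivity)
  unfold hh
  rw [h1, h2]
  simp [h3]

lemma measurable_hh (ε : ℝ) (v : L) : Measurable (hh ε v) := by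
  unfold hh
  apply Measurable.ite
  · exact (measurableSet_Ici (a := (0:ℝ))).inter (measurableSet_lt measurable_fract measurable_const)
  · exact (measurable_from_nat (f := fun k => v k)).comp Nat.measurable_floor
  · exact measurable_const

lemma lintegral_hh (ε : ℝ) (_hε : 0 < ε) (hε1 : ε ≤ 1) (v : L) :
    ∫⁻ x, ‖hh ε v x‖ₑ ^ 2 = ENNReal.ofReal (ε * ‖v‖ ^ 2) := by
  rw [lunf (fun x => ‖hh ε v x‖ₑ ^ 2) ((measurable_hh ε v).enorm.pow_const 2)
    (fun x hx => by rw [hh_neg ε v hx]; simp)]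
  have h1 : ∀ ξ ∈ Set.Ico (0:ℝ) 1, ∑' k : ℕ, ‖hh ε v (ξ + k)‖ₑ ^ 2 =
      (Set.Iio ε).indicator (fun _ => ENNReal.ofReal (‖v‖ ^ 2)) ξ := by
    intro ξ hξ
    simp_rw [hh_apply ε v hξ]
    by_cases h : ξ < ε
    · simp only [h, if_true]
      rw [Set.indicator_of_mem (show ξ ∈ Set.Iio ε from h), norm_sq_lp,
        ENNReal.ofReal_tsum_of_nonneg (fun _ => by positivity) (summable_sq_lp v)]
      congr 1
      funext k
      rw [ENNReal.ofReal_pow (norm_nonneg _), ofReal_norm]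
    · simp only [h, if_false]
      rw [Set.indicator_of_notMem (show ξ ∉ Set.Iio ε from h)]
      simp
  rw [setLIntegral_congr_fun measurableSet_Ico h1, lintegral_indicator measurableSet_Iio,
    Measure.restrict_restrict measurableSet_Iio, lintegral_const, Measure.restrict_apply_univ]
  have h2 : Set.Iio ε ∩ Set.Ico (0:ℝ) 1 = Set.Ico 0 ε := by
    ext x; simp only [Set.mem_inter_iff, Set.mem_Iio, Set.mem_Ico]
    constructor
    · rintro ⟨a, b, c⟩; exact ⟨b, a⟩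
    · rintro ⟨a, b⟩; exact ⟨b, a, by linarith⟩
  rw [h2, Real.volume_Ico, sub_zero, mul_comm ε, ENNReal.ofReal_mul (by positivity)]

lemma memLp_hh (ε : ℝ) (hε : 0 < ε) (hε1 : ε ≤ 1) (v : L) : MemLp (hh ε v) 2 volume := by
  refine ⟨(measurable_hh ε v).aestronglyMeasurable, ?_⟩
  have h := eLpNorm_two_sq (hh ε v)
  rw [lintegral_hh ε hε hε1 v] at h
  by_contra hcon
  rw [not_lt, top_le_iff] at hcon
  rw [hcon] at h
  simp at h

lemma norm_hh (ε : ℝ) (hε : 0 < ε) (hε1 : ε ≤ 1) (v : L) :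
    ‖(memLp_hh ε hε hε1 v).toLp _‖ ^ 2 = ε * ‖v‖ ^ 2 := by
  have h : ‖(memLp_hh ε hε hε1 v).toLp _‖ₑ ^ 2 = ENNReal.ofReal (ε * ‖v‖ ^ 2) := by
    rw [Lp.enorm_def, eLpNorm_congr_ae (memLp_hh ε hε hε1 v).coeFn_toLp, eLpNorm_two_sq,
      lintegral_hh ε hε hε1 v]
  rw [← ofReal_norm, ← ENNReal.ofReal_pow (norm_nonneg _)] at h
  exact (ENNReal.ofReal_eq_ofReal_iff (by positivity) (by positivity)).1 h

/-- Bessel's inequality for the exponentials. -/
lemma bessel01 (F : ℝ → ℂ) (hF : MemLp F 2 (volume.restrict (Set.Ico (0:ℝ) 1))) (t : Finset ℤ) :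
    ∑ l ∈ t, ‖∫ ξ in Set.Ico (0:ℝ) 1, (starRingEnd ℂ (ex l ξ)) * F ξ‖ ^ 2 ≤
      ∫ ξ in Set.Ico (0:ℝ) 1, ‖F ξ‖ ^ 2 := by
  have hr : volume.restrict (Set.Ico (0:ℝ) 1) = volume.restrict (Set.Ioc (0:ℝ) 1) :=
    Measure.restrict_congr_set Ico_ae_eq_Ioc
  rw [hr] at hF ⊢
  have hab : (0:ℝ) < 1 := by norm_num
  have h1 := hasSum_sq_fourierCoeffOn hab hF
  rw [intervalIntegral.integral_of_le hab.le] at h1
  simp only [sub_zero, inv_one, one_smul] at h1
  have h2 : ∀ l : ℤ, ‖∫ ξ in Set.Ioc (0:ℝ) 1, (starRingEnd ℂ (ex l ξ)) * F ξ‖ ^ 2 =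
      ‖fourierCoeffOn hab F (-l)‖ ^ 2 := by
    intro l
    rw [fourierCoeffOn_eq_integral, intervalIntegral.integral_of_le hab.le]
    have h3 : ∀ x : ℝ, fourier (-(-l)) (x : AddCircle ((1:ℝ) - 0)) • F x =
        (starRingEnd ℂ (ex l x)) * F x := by
      intro x
      rw [fourier_coe_apply, smul_eq_mul, ex_conj]
      congr 1
      unfold ex
      congr 1
      push_cast
      ring
    simp_rw [h3]
    simp
  simp_rw [h2]
  have h4 : HasSum (fun l : ℤ => ‖fourierCoeffOn hab F (-l)‖ ^ 2)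
      (∫ x in Set.Ioc (0:ℝ) 1, ‖F x‖ ^ 2) := by
    rw [← (Equiv.neg ℤ).hasSum_iff] at h1
    exact h1
  exact sum_le_hasSum t (fun _ _ => by positivity) h4

/-- The pairing of a function with the test function, in fibres. -/
lemma pair_hh {e : ℝ → ℂ} (hd : Dec e) (heL : MemLp e 2 volume) (ε : ℝ) (hε : 0 < ε) (hε1 : ε ≤ 1)
    (v : L) (l : ℤ) :
    ∫ x, (starRingEnd ℂ (ex l x * e x)) * hh ε v x =
      ∫ ξ in Set.Ico (0:ℝ) 1, (starRingEnd ℂ (ex l ξ)) *
        (if ξ < ε then inner ℂ (fib e ξ) v else 0) := by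
  have hm : MemLp (fun x => ex l x * e x) 2 volume := by
    refine heL.congr_norm ((measurable_ex l).aestronglyMeasurable.mul heL.1)
      (Eventually.of_forall fun x => ?_)
    rw [norm_mul, norm_ex, one_mul]
  have hi : Integrable (fun x => (starRingEnd ℂ (ex l x * e x)) * hh ε v x) := by
    have h1 : MemLp (fun x => (starRingEnd ℂ) (ex l x * e x)) 2 volume := hm.star
    exact (memLp_hh ε hε hε1 v).integrable_mul h1 |>.congr (Eventually.of_forall fun x => by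
      simp [mul_comm])
  rw [unf _ hi]
  · apply setIntegral_congr_fun measurableSet_Ico
    intro ξ hξ
    simp only
    simp_rw [hh_apply ε v hξ, ex_add_nat]
    by_cases h : ξ < ε
    · simp only [h, if_true]
      rw [lp.inner_eq_tsum, ← tsum_mul_left]
      congr 1
      funext k
      rw [fib_apply hd hξ.1, map_mul]
      simp
      ring
    · simp [h]
  · intro x hx
    rw [hh_neg ε v hx, mul_zero]


lemma fib_bound {e : ℝ → ℂ} (hd : Dec e) : ∃ B : ℝ, ∀ ξ, 0 ≤ ξ → ‖fib e ξ‖ ≤ B := by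
  obtain ⟨K, hK, h⟩ := hd
  refine ⟨Real.sqrt (K ^ 2 * (2 / 1)), fun ξ hξ => ?_⟩
  apply Real.le_sqrt_of_sq_le
  rw [norm_fib ⟨K, hK, h⟩ hξ]
  refine Real.tsum_le_of_sum_range_le (fun _ => by positivity) fun N => ?_
  calc ∑ k ∈ Finset.range N, ‖e (ξ + k)‖ ^ 2
      ≤ ∑ k ∈ Finset.range N, K ^ 2 * (1 / (1 + 1 * (k:ℝ))) ^ 2 := by
        refine Finset.sum_le_sum fun k _ => ?_
        have hk : (0:ℝ) ≤ k := by positivity
        have h1 := h (ξ + k) (by positivity)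
        rw [← mul_pow]
        refine pow_le_pow_left₀ (norm_nonneg _) ?_ 2
        rw [mul_one_div, le_div_iff₀ (by positivity)]
        nlinarith [norm_nonneg (e (ξ + k))]
    _ = K ^ 2 * ∑ k ∈ Finset.range N, (1 / (1 + 1 * (k:ℝ))) ^ 2 := by rw [Finset.mul_sum]
    _ ≤ K ^ 2 * (2 / 1) := by
        gcongr
        exact tele 1 (by norm_num) le_rfl N

lemma memLp_pair {e : ℝ → ℂ} (hd : Dec e) (hem : Measurable e) (ε : ℝ) (v : L) :
    MemLp (fun ξ => if ξ < ε then (inner ℂ (fib e ξ) v : ℂ) else 0) 2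
      (volume.restrict (Set.Ico (0:ℝ) 1)) := by
  obtain ⟨B, hB⟩ := fib_bound hd
  have hmeas : AEStronglyMeasurable (fun ξ => (inner ℂ (fib e ξ) v : ℂ))
      (volume.restrict (Set.Ico (0:ℝ) 1)) := by
    refine aestronglyMeasurable_of_tendsto_ae (u := atTop)
      (f := fun (N : ℕ) ξ => ∑ k ∈ Finset.range N, (starRingEnd ℂ (e (ξ + k))) * v k) ?_ ?_
    · intro N
      apply Measurable.aestronglyMeasurable
      refine Finset.measurable_sum _ fun k _ => ?_
      exact (Complex.continuous_conj.measurable.comp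
        (hem.comp (measurable_id.add_const _))).mul_const _
    · filter_upwards [ae_restrict_mem measurableSet_Ico] with ξ hξ
      have h1 := (lp.hasSum_inner (𝕜 := ℂ) (fib e ξ) v).tendsto_sum_nat
      refine h1.congr fun N => ?_
      refine Finset.sum_congr rfl fun k _ => ?_
      rw [fib_apply hd hξ.1]
      simp [mul_comm]
  have hmeas2 : AEStronglyMeasurable (fun ξ => if ξ < ε then (inner ℂ (fib e ξ) v : ℂ) else 0)
      (volume.restrict (Set.Ico (0:ℝ) 1)) := by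
    have := hmeas.indicator (measurableSet_Iio (a := ε))
    refine this.congr (Eventually.of_forall fun ξ => ?_)
    simp only [Set.indicator_apply, Set.mem_Iio]
  refine MemLp.of_bound hmeas2 (B * ‖v‖) ?_
  filter_upwards [ae_restrict_mem measurableSet_Ico] with ξ hξ
  have hb0 : 0 ≤ B := (norm_nonneg _).trans (hB ξ hξ.1)
  split_ifs
  · exact (norm_inner_le_norm _ _).trans (by gcongr; exact hB ξ hξ.1)
  · rw [norm_zero]; positivity

/-- The bound for all integer modulates of one function. -/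
lemma bessel_hh {e : ℝ → ℂ} (hd : Dec e) (hem : Measurable e) (heL : MemLp e 2 volume) (ε : ℝ)
    (hε : 0 < ε) (hε1 : ε ≤ 1) (v : L) (t : Finset ℤ) (b : ℝ)
    (hbd : ∀ ξ ∈ Set.Ico (0:ℝ) ε, ‖(inner ℂ (fib e ξ) v : ℂ)‖ ^ 2 ≤ b) :
    ∑ l ∈ t, ‖∫ x, (starRingEnd ℂ (ex l x * e x)) * hh ε v x‖ ^ 2 ≤ ε * b := by
  simp_rw [pair_hh hd heL ε hε hε1 v]
  refine (bessel01 _ (memLp_pair hd hem ε v) t).trans ?_
  have hle : ∀ ξ ∈ Set.Ico (0:ℝ) 1, ‖(if ξ < ε then (inner ℂ (fib e ξ) v : ℂ) else 0)‖ ^ 2 ≤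
      (Set.Iio ε).indicator (fun _ => b) ξ := by
    intro ξ hξ
    by_cases h : ξ < ε
    · rw [if_pos h, Set.indicator_of_mem (show ξ ∈ Set.Iio ε from h)]
      exact hbd ξ ⟨hξ.1, h⟩
    · rw [if_neg h, Set.indicator_of_notMem (show ξ ∉ Set.Iio ε from h)]
      simp
  have h2 : Set.Iio ε ∩ Set.Ico (0:ℝ) 1 = Set.Ico 0 ε := by
    ext x; simp only [Set.mem_inter_iff, Set.mem_Iio, Set.mem_Ico]
    constructor
    · rintro ⟨a, b, c⟩; exact ⟨b, a⟩
    · rintro ⟨a, b⟩; exact ⟨b, a, by linarith⟩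
  calc ∫ ξ in Set.Ico (0:ℝ) 1, ‖(if ξ < ε then (inner ℂ (fib e ξ) v : ℂ) else 0)‖ ^ 2
      ≤ ∫ ξ in Set.Ico (0:ℝ) 1, (Set.Iio ε).indicator (fun _ => b) ξ := by
        refine setIntegral_mono_on ?_ ?_ measurableSet_Ico hle
        · exact (memLp_two_iff_integrable_sq_norm (memLp_pair hd hem ε v).1).1
            (memLp_pair hd hem ε v)
        · exact (integrable_const b).indicator measurableSet_Iio
    _ = ε * b := by
        rw [integral_indicator measurableSet_Iio, Measure.restrict_restrict measurableSet_Iio, h2,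
          integral_const]
        simp [hε.le]

end Pool.Agent.Helper704.HW
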