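import Mathlib
import Pool.Agent.Helper704.HW.Fin
set_option autoImplicit false
open MeasureTheory Filter Topology
open scoped ENNReal
open Pool.Agent.Helper704 Pool.Agent.Helper704.RW

namespace Pool.Agent.Helper704.HW

lemma sum_level (S : Finset PP) (X : ℝ) (hX : 0 ≤ X) :
    ∑ p ∈ S, (1 / 2 : ℝ) ^ p.1 * (2 * (1 / 2) ^ p.1 * X) ≤ 4 * X := by
  classical
  obtain ⟨N, hN⟩ : ∃ N : ℕ, ∀ p ∈ S, p.1 < N := by
    refine ⟨S.sup (fun p => p.1) + 1, fun p hp => ?_⟩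
    have := Finset.le_sup (f := fun p : PP => p.1) hp
    omega
  have hsub : S ⊆ (Finset.range N).sigma (fun n => (Finset.univ : Finset (Fin (2 ^ n)))) := by
    intro p hp
    rw [Finset.mem_sigma]
    exact ⟨Finset.mem_range.2 (hN p hp), Finset.mem_univ _⟩
  calc ∑ p ∈ S, (1 / 2 : ℝ) ^ p.1 * (2 * (1 / 2) ^ p.1 * X)
      ≤ ∑ p ∈ (Finset.range N).sigma (fun n => (Finset.univ : Finset (Fin (2 ^ n)))),
          (1 / 2 : ℝ) ^ p.1 * (2 * (1 / 2) ^ p.1 * X) :=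
        Finset.sum_le_sum_of_subset_of_nonneg hsub fun _ _ _ => by positivity
    _ = ∑ n ∈ Finset.range N, ∑ _i : Fin (2 ^ n), (1 / 2 : ℝ) ^ n * (2 * (1 / 2) ^ n * X) := by
        rw [Finset.sum_sigma]
    _ = (∑ n ∈ Finset.range N, (1 / 2 : ℝ) ^ n) * (2 * X) := by
        rw [Finset.sum_mul]
        refine Finset.sum_congr rfl fun n _ => ?_
        rw [Finset.sum_const, Finset.card_univ, Fintype.card_fin, nsmul_eq_mul]
        have : (((2 ^ n : ℕ) : ℝ)) * (1 / 2) ^ n = 1 := by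
          push_cast
          rw [← mul_pow]; norm_num
        linear_combination (2 * (1 / 2) ^ n * X) * this
    _ ≤ 2 * (2 * X) := by
        gcongr
        exact sum_geometric_two_le N
    _ = 4 * X := by ring

/-- The value of one coefficient. -/
noncomputable def cf (g : ℝ → ℂ) (ε : ℝ) (v : L) (q : ℤ × ℤ) : ℝ :=
  ‖∫ x, (starRingEnd ℂ (fq q g x)) * hh ε v x‖ ^ 2

lemma cf_nonneg (g : ℝ → ℂ) (ε : ℝ) (v : L) (q : ℤ × ℤ) : 0 ≤ cf g ε v q := by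
  unfold cf; positivity

lemma measurable_fq {g : ℝ → ℂ} {K : ℝ} (hg : Nice g K) (q : ℤ × ℤ) : Measurable (fq q g) := by
  unfold fq
  have h1 := hg.diff.continuous.measurable
  have h2 := measurable_ex q.2
  fun_prop

lemma pos_bound {g : ℝ → ℂ} {K : ℝ} (hg : Nice g K) (hgL : MemLp g 2 volume) (ε : ℝ) (hε : 0 < ε)
    (hε1 : ε ≤ 1) (v : L) (hv : ∀ p, inner ℂ (uu g 0 p) v = 0) (p : PP) (t : Finset ℤ) :
    ∑ l ∈ t, cf g ε v (sh (p, l)) ≤
      ε * (‖v‖ ^ 2 * ((1 / 2) ^ p.1 * (2 * (1 / 2) ^ p.1 * (K ^ 2 * ε ^ 2)))) := by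
  unfold cf
  simp_rw [fq_sh]
  refine bessel_hh (dec_fq hg (ix p)) (measurable_fq hg _) (memLp_fq _ hgL) ε hε hε1 v t _ ?_
  intro ξ hξ
  rw [fib_eq_uu, inner_smul_left, norm_mul, RCLike.norm_conj, norm_ex, one_mul]
  have h1 : (inner ℂ (uu g ξ p) v : ℂ) = inner ℂ (uu g ξ p - uu g 0 p) v := by
    rw [inner_sub_left, hv, sub_zero]
  rw [h1]
  have h2 := norm_inner_le_norm (𝕜 := ℂ) (uu g ξ p - uu g 0 p) v
  have h3 := norm_uu_sub hg hξ.1 le_rfl p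
  rw [sub_zero] at h3
  have h4 : |ξ| ^ 2 ≤ ε ^ 2 := by
    rw [abs_of_nonneg hξ.1]
    exact pow_le_pow_left₀ hξ.1 hξ.2.le 2
  calc ‖(inner ℂ (uu g ξ p - uu g 0 p) v : ℂ)‖ ^ 2
      ≤ (‖uu g ξ p - uu g 0 p‖ * ‖v‖) ^ 2 := pow_le_pow_left₀ (norm_nonneg _) h2 2
    _ = ‖v‖ ^ 2 * ‖uu g ξ p - uu g 0 p‖ ^ 2 := by ring
    _ ≤ ‖v‖ ^ 2 * ((1 / 2) ^ p.1 * (2 * (1 / 2) ^ p.1 * K ^ 2 * |ξ| ^ 2)) := by gcongr
    _ ≤ ‖v‖ ^ 2 * ((1 / 2) ^ p.1 * (2 * (1 / 2) ^ p.1 * K ^ 2 * ε ^ 2)) := by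
        gcongr
    _ = _ := by ring

lemma neg_fib {g : ℝ → ℂ} {K : ℝ} (hg : Nice g K) (M : ℕ) (hM : 1 ≤ M) (v : L)
    (hv : ∀ k < M, v k = 0) (J : ℕ) (ξ : ℝ) (hξ : ξ ∈ Set.Ico (0:ℝ) 1) :
    ‖(inner ℂ (fib (fq (-((J:ℤ) + 1), 0) g) ξ) v : ℂ)‖ ^ 2 ≤
      ‖v‖ ^ 2 * (K ^ 2 * (1 / 2) ^ (J + 1) * (2 / M)) := by
  set e : ℝ → ℂ := fq (-((J:ℤ) + 1), 0) g with he
  set e' : ℝ → ℂ := (Set.Ici (M:ℝ)).indicator e with he'
  have hd := dec_fq hg (-((J:ℤ) + 1), 0)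
  have hd' : Dec e' := by
    obtain ⟨C, hC, h⟩ := hd
    refine ⟨C, hC, fun x hx => ?_⟩
    refine le_trans ?_ (h x hx)
    gcongr
    exact norm_indicator_le_norm_self _ _
  have hin : (inner ℂ (fib e ξ) v : ℂ) = inner ℂ (fib e' ξ) v := by
    rw [lp.inner_eq_tsum, lp.inner_eq_tsum]
    congr 1
    funext k
    rw [fib_apply hd hξ.1, fib_apply hd' hξ.1]
    by_cases hk : k < M
    · rw [hv k hk]; simp
    · rw [he', Set.indicator_of_mem]
      have : (M:ℝ) ≤ k := by exact_mod_cast not_lt.1 hk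
      simp only [Set.mem_Ici]
      linarith [hξ.1]
  have hK := hg.pos
  set a : ℝ := 2 ^ (J + 1) with ha
  have ha0 : 0 < a := by positivity
  have ea : (2:ℝ) ^ (-(-((J:ℤ) + 1))) = a := by
    rw [neg_neg, ha, ← zpow_natCast]; push_cast; rfl
  have ea' : (1 / 2 : ℝ) ^ (J + 1) = 1 / a := by rw [ha, div_pow, one_pow]
  have hnorm : ‖fib e' ξ‖ ^ 2 ≤ K ^ 2 * (1 / 2) ^ (J + 1) * (2 / M) := by
    rw [norm_fib hd' hξ.1]
    refine Real.tsum_le_of_sum_range_le (fun _ => by positivity) fun N => ?_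
    calc ∑ k ∈ Finset.range N, ‖e' (ξ + k)‖ ^ 2
        ≤ ∑ k ∈ Finset.range N, K ^ 2 * (1 / 2) ^ (J + 1) *
            (if M ≤ k then (1 / (k:ℝ)) ^ 2 else (0:ℝ)) := by
          refine Finset.sum_le_sum fun k _ => ?_
          by_cases hk : M ≤ k
          · rw [if_pos hk, he']
            refine (pow_le_pow_left₀ (norm_nonneg _) (norm_indicator_le_norm_self _ _) 2).trans ?_
            rw [he, norm_fq, mul_pow, Real.sq_sqrt (by positivity)]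
            simp only
            rw [ea, ea']
            have hk1 : (1:ℝ) ≤ k := by exact_mod_cast hM.trans hk
            have hy : a * k ≤ a * (ξ + k) := by nlinarith [hξ.1]
            have h1 := hg.dec (a * (ξ + k)) (by nlinarith [hξ.1])
            have h2 : ‖g (a * (ξ + k))‖ * (a * k) ≤ K := by
              refine le_trans ?_ h1
              gcongr
              have h3 : 0 ≤ a * (ξ + k) := by nlinarith [hξ.1]
              nlinarith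
            have h4 : (‖g (a * (ξ + k))‖ * (a * k)) ^ 2 ≤ K ^ 2 :=
              pow_le_pow_left₀ (by positivity) h2 2
            rw [div_pow, one_pow]
            have h5 : a * ‖g (a * (ξ + k))‖ ^ 2 =
                (‖g (a * (ξ + k))‖ * (a * k)) ^ 2 * (1 / a) * (1 / (k:ℝ) ^ 2) := by
              field_simp
            rw [h5]
            gcongr
          · rw [if_neg hk, he', Set.indicator_of_notMem]
            · simp
            · simp only [Set.mem_Ici, not_le]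
              have h1 : (k:ℝ) + 1 ≤ M := by exact_mod_cast (not_le.1 hk)
              linarith [hξ.2]
      _ = K ^ 2 * (1 / 2) ^ (J + 1) *
            ∑ k ∈ Finset.range N, (if M ≤ k then (1 / (k:ℝ)) ^ 2 else (0:ℝ)) := by
          rw [Finset.mul_sum]
      _ ≤ K ^ 2 * (1 / 2) ^ (J + 1) * (2 / M) := by
          gcongr
          exact tele2 M hM N
  rw [hin]
  calc ‖(inner ℂ (fib e' ξ) v : ℂ)‖ ^ 2 ≤ (‖fib e' ξ‖ * ‖v‖) ^ 2 :=
        pow_le_pow_left₀ (norm_nonneg _) (norm_inner_le_norm _ _) 2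
    _ = ‖v‖ ^ 2 * ‖fib e' ξ‖ ^ 2 := by ring
    _ ≤ _ := by gcongr

lemma fq_neg_level (g : ℝ → ℂ) (J : ℕ) (k : ℤ) (x : ℝ) :
    fq (-((J:ℤ) + 1), k) g x = ex (2 ^ (J + 1) * k) x * fq (-((J:ℤ) + 1), 0) g x := by
  unfold fq
  simp only
  have h : ex k ((2:ℝ) ^ (-(-((J:ℤ) + 1))) * x) =
      ex (2 ^ (J + 1) * k) x * ex 0 ((2:ℝ) ^ (-(-((J:ℤ) + 1))) * x) := by
    unfold ex
    rw [← Complex.exp_add]
    congr 1
    have h3 : ((2:ℂ) ^ (-(-((J:ℤ) + 1)))) = (2:ℂ) ^ (J + 1) := by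
      rw [neg_neg, ← zpow_natCast]; push_cast; rfl
    push_cast
    rw [h3]
    ring
  rw [h]; ring

lemma neg_bound {g : ℝ → ℂ} {K : ℝ} (hg : Nice g K) (hgL : MemLp g 2 volume) (ε : ℝ) (hε : 0 < ε)
    (hε1 : ε ≤ 1) (M : ℕ) (hM : 1 ≤ M) (v : L) (hv : ∀ k < M, v k = 0) (J : ℕ) (t : Finset ℤ) :
    ∑ k ∈ t, cf g ε v (-((J:ℤ) + 1), k) ≤
      ε * (‖v‖ ^ 2 * (K ^ 2 * (1 / 2) ^ (J + 1) * (2 / M))) := by
  classical
  have hinj : Function.Injective (fun k : ℤ => (2:ℤ) ^ (J + 1) * k) := by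
    intro k k' h
    exact mul_left_cancel₀ (pow_ne_zero _ two_ne_zero) h
  have h1 := bessel_hh (dec_fq hg (-((J:ℤ) + 1), 0)) (measurable_fq hg _) (memLp_fq _ hgL) ε hε hε1
    v (t.map ⟨_, hinj⟩) (‖v‖ ^ 2 * (K ^ 2 * (1 / 2) ^ (J + 1) * (2 / M)))
    (fun ξ hξ => neg_fib hg M hM v hv J ξ ⟨hξ.1, lt_of_lt_of_le hξ.2 hε1⟩)
  rw [Finset.sum_map] at h1
  refine le_trans (le_of_eq (Finset.sum_congr rfl fun k _ => ?_)) h1
  unfold cf
  have e : ∀ x, (starRingEnd ℂ) (fq (-((J:ℤ) + 1), k) g x) * hh ε v x =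
      (starRingEnd ℂ) (ex (2 ^ (J + 1) * k) x * fq (-((J:ℤ) + 1), 0) g x) * hh ε v x := by
    intro x
    rw [← fq_neg_level g J k x]
  rw [integral_congr_ae (Eventually.of_forall e)]
  rfl

/-- The inverse of the shift. -/
def inv (q : ℤ × ℤ) : PP × ℤ :=
  (⟨q.1.toNat, ⟨(q.2 % 2 ^ q.1.toNat).toNat, by
    have h1 : 0 ≤ q.2 % 2 ^ q.1.toNat := Int.emod_nonneg _ (by positivity)
    have h2 : q.2 % 2 ^ q.1.toNat < 2 ^ q.1.toNat := Int.emod_lt_of_pos _ (by positivity)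
    zify
    rw [Int.toNat_of_nonneg h1]
    exact h2⟩⟩, q.2 / 2 ^ q.1.toNat)

lemma sh_inv (q : ℤ × ℤ) (hq : 0 ≤ q.1) : sh (inv q) = q := by
  unfold sh inv ix
  have h1 : 0 ≤ q.2 % 2 ^ q.1.toNat := Int.emod_nonneg _ (by positivity)
  apply Prod.ext
  · simp only
    exact Int.toNat_of_nonneg hq
  · simp only
    rw [Int.toNat_of_nonneg h1]
    exact Int.emod_add_mul_ediv _ _

theorem sum_cf {g : ℝ → ℂ} {K : ℝ} (hg : Nice g K) (hgL : MemLp g 2 volume) (ε : ℝ) (hε : 0 < ε)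
    (hε1 : ε ≤ 1) (M : ℕ) (hM : 1 ≤ M) (v : L) (hv0 : ∀ p, inner ℂ (uu g 0 p) v = 0)
    (hv : ∀ k < M, v k = 0) (s : Finset (ℤ × ℤ)) :
    ∑ q ∈ s, cf g ε v q ≤ ε * ‖v‖ ^ 2 * (4 * (K ^ 2 * ε ^ 2) + K ^ 2 * (2 / M)) := by
  classical
  have hpos : ∑ q ∈ s.filter (fun q => 0 ≤ q.1), cf g ε v q ≤
      ε * ‖v‖ ^ 2 * (4 * (K ^ 2 * ε ^ 2)) := by
    set s1 := s.filter (fun q => 0 ≤ q.1) with hs1
    have h1 : ∑ q ∈ s1, cf g ε v q = ∑ x ∈ s1.image inv, cf g ε v (sh x) := by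
      rw [Finset.sum_image]
      · refine Finset.sum_congr rfl fun q hq => ?_
        rw [sh_inv q (Finset.mem_filter.1 hq).2]
      · intro q hq q' hq' h
        rw [← sh_inv q (Finset.mem_filter.1 hq).2, ← sh_inv q' (Finset.mem_filter.1 hq').2, h]
    rw [h1]
    set T := s1.image inv with hT
    calc ∑ x ∈ T, cf g ε v (sh x) ≤ ∑ x ∈ (T.image Prod.fst) ×ˢ (T.image Prod.snd), cf g ε v (sh x) :=
          Finset.sum_le_sum_of_subset_of_nonneg Finset.subset_product fun _ _ _ => cf_nonneg _ _ _ _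
      _ = ∑ p ∈ T.image Prod.fst, ∑ l ∈ T.image Prod.snd, cf g ε v (sh (p, l)) := by
          rw [Finset.sum_product]
      _ ≤ ∑ p ∈ T.image Prod.fst,
            ε * (‖v‖ ^ 2 * ((1 / 2) ^ p.1 * (2 * (1 / 2) ^ p.1 * (K ^ 2 * ε ^ 2)))) :=
          Finset.sum_le_sum fun p _ => pos_bound hg hgL ε hε hε1 v hv0 p _
      _ = ε * ‖v‖ ^ 2 * ∑ p ∈ T.image Prod.fst,
            ((1 / 2 : ℝ) ^ p.1 * (2 * (1 / 2) ^ p.1 * (K ^ 2 * ε ^ 2))) := by
          rw [Finset.mul_sum]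
          refine Finset.sum_congr rfl fun p _ => by ring
      _ ≤ ε * ‖v‖ ^ 2 * (4 * (K ^ 2 * ε ^ 2)) := by
          gcongr
          exact sum_level _ _ (by positivity)
  have hneg : ∑ q ∈ s.filter (fun q => ¬ 0 ≤ q.1), cf g ε v q ≤
      ε * ‖v‖ ^ 2 * (K ^ 2 * (2 / M)) := by
    set s2 := s.filter (fun q => ¬ 0 ≤ q.1) with hs2
    have hq2 : ∀ q ∈ s2, ((-(((-q.1 - 1).toNat : ℤ) + 1), q.2) : ℤ × ℤ) = q := by
      intro q hq
      have h2 : ¬ 0 ≤ q.1 := (Finset.mem_filter.1 hq).2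
      apply Prod.ext
      · simp only
        omega
      · rfl
    have h1 : ∑ q ∈ s2, cf g ε v q = ∑ x ∈ s2.image (fun q : ℤ × ℤ => ((-q.1 - 1).toNat, q.2)),
        cf g ε v (-((x.1 : ℤ) + 1), x.2) := by
      rw [Finset.sum_image]
      · refine Finset.sum_congr rfl fun q hq => ?_
        rw [hq2 q hq]
      · intro q hq q' hq' h
        rw [← hq2 q hq, ← hq2 q' hq']
        have ha := congrArg Prod.fst h
        have hb := congrArg Prod.snd h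
        simp only at ha hb
        rw [ha, hb]
    rw [h1]
    set T := s2.image (fun q : ℤ × ℤ => ((-q.1 - 1).toNat, q.2)) with hT
    obtain ⟨N, hN⟩ : ∃ N : ℕ, ∀ x ∈ T, x.1 < N := by
      refine ⟨T.sup (fun x => x.1) + 1, fun x hx => ?_⟩
      have := Finset.le_sup (f := fun x : ℕ × ℤ => x.1) hx
      omega
    have hsub : T ⊆ (Finset.range N) ×ˢ (T.image Prod.snd) := by
      intro x hx
      rw [Finset.mem_product]
      exact ⟨Finset.mem_range.2 (hN x hx), Finset.mem_image_of_mem _ hx⟩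
    calc ∑ x ∈ T, cf g ε v (-((x.1 : ℤ) + 1), x.2)
        ≤ ∑ x ∈ (Finset.range N) ×ˢ (T.image Prod.snd), cf g ε v (-((x.1 : ℤ) + 1), x.2) :=
          Finset.sum_le_sum_of_subset_of_nonneg hsub fun _ _ _ => cf_nonneg _ _ _ _
      _ = ∑ J ∈ Finset.range N, ∑ k ∈ T.image Prod.snd, cf g ε v (-((J : ℤ) + 1), k) := by
          rw [Finset.sum_product]
      _ ≤ ∑ J ∈ Finset.range N, ε * (‖v‖ ^ 2 * (K ^ 2 * (1 / 2) ^ (J + 1) * (2 / M))) :=
          Finset.sum_le_sum fun J _ => neg_bound hg hgL ε hε hε1 M hM v hv J _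
      _ = ε * ‖v‖ ^ 2 * (K ^ 2 * (2 / M)) * ((1 / 2) * ∑ J ∈ Finset.range N, (1 / 2 : ℝ) ^ J) := by
          rw [Finset.mul_sum, Finset.mul_sum]
          refine Finset.sum_congr rfl fun J _ => by ring
      _ ≤ ε * ‖v‖ ^ 2 * (K ^ 2 * (2 / M)) * 1 := by
          gcongr
          have := sum_geometric_two_le N
          linarith
      _ = _ := by ring
  rw [← Finset.sum_filter_add_sum_filter_not s (fun q => 0 ≤ q.1)]
  linarith

/-- The finiteness of the complement at zero. -/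
theorem finite_at_zero {g : ℝ → ℂ} {K : ℝ} (hg : Nice g K) (hgL : MemLp g 2 volume) (A : ℝ)
    (hA : 0 < A)
    (hfr : ∀ (h : ℝ → ℂ) (hh : MemLp h 2 volume), (∀ x ≤ 0, h x = 0) → ∀ S : ℝ,
      (∀ s : Finset (ℤ × ℤ), ∑ q ∈ s, ‖∫ x, (starRingEnd ℂ (fq q g x)) * h x‖ ^ 2 ≤ S) →
      A * ‖hh.toLp h‖ ^ 2 ≤ S) :
    ∃ M : ℕ, ∀ v : L, (∀ p, inner ℂ (uu g 0 p) v = 0) → (∀ k < M, v k = 0) → v = 0 := by
  have hK := hg.pos
  obtain ⟨M, hM⟩ := exists_nat_gt (8 * K ^ 2 / A + 1)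
  have hM0 : (1:ℝ) < M := lt_of_le_of_lt (by have : 0 ≤ 8 * K ^ 2 / A := by positivity
                                             linarith) hM
  have hM1 : 1 ≤ M := by exact_mod_cast hM0.le
  set ε : ℝ := min 1 (Real.sqrt (A / (16 * K ^ 2))) with hε
  have hε0 : 0 < ε := by
    rw [hε]
    exact lt_min one_pos (Real.sqrt_pos.2 (by positivity))
  have hε1 : ε ≤ 1 := min_le_left _ _
  have hε2 : 4 * (K ^ 2 * ε ^ 2) ≤ A / 4 := by
    have h1 : ε ^ 2 ≤ A / (16 * K ^ 2) := by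
      have h2 : ε ≤ Real.sqrt (A / (16 * K ^ 2)) := min_le_right _ _
      calc ε ^ 2 ≤ (Real.sqrt (A / (16 * K ^ 2))) ^ 2 := pow_le_pow_left₀ hε0.le h2 2
        _ = _ := Real.sq_sqrt (by positivity)
    calc 4 * (K ^ 2 * ε ^ 2) ≤ 4 * (K ^ 2 * (A / (16 * K ^ 2))) := by gcongr
      _ = A / 4 := by field_simp; ring
  have hM2 : K ^ 2 * (2 / M) ≤ A / 4 := by
    have h1 : 8 * K ^ 2 / A < M := by linarith
    rw [div_lt_iff₀ hA] at h1
    rw [mul_div_assoc', div_le_iff₀ (by linarith)]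
    linarith
  refine ⟨M, fun v hv0 hv => ?_⟩
  have h1 := hfr (hh ε v) (memLp_hh ε hε0 hε1 v) (fun x hx => by
      rcases lt_or_eq_of_le hx with h | h
      · exact hh_neg ε v h
      · subst h
        have := hh_apply ε v (ξ := 0) ⟨le_rfl, by norm_num⟩ 0
        simp only [Nat.cast_zero, add_zero] at this
        rw [this, hv 0 (by omega)]; simp)
    (ε * ‖v‖ ^ 2 * (4 * (K ^ 2 * ε ^ 2) + K ^ 2 * (2 / M)))
    (fun s => sum_cf hg hgL ε hε0 hε1 M hM1 v hv0 hv s)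
  rw [norm_hh _ hε0 hε1] at h1
  by_contra hne
  have h2 : 0 < ‖v‖ ^ 2 := by
    have := norm_pos_iff.2 hne
    positivity
  have h3 : ε * ‖v‖ ^ 2 * (4 * (K ^ 2 * ε ^ 2) + K ^ 2 * (2 / M)) ≤ ε * ‖v‖ ^ 2 * (A / 2) := by
    gcongr
    linarith
  have h4 : 0 < ε * ‖v‖ ^ 2 := by positivity
  nlinarith [mul_pos h4 hA]

end Pool.Agent.Helper704.HW
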