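import Mathlib
import Pool.Agent.Helper704.HW.Fin2
set_option autoImplicit false
open MeasureTheory Filter Topology
open scoped ENNReal FourierTransform
open Pool.Agent.Helper704 Pool.Agent.Helper704.RW

namespace Pool.Agent.Helper704.HW

/-- pointwise Fourier transform of the wavelets -/
lemma fourier_ts (ψ : SchwartzMap ℝ ℂ) (p : ℤ × ℤ) (ξ : ℝ) :
    𝓕 (fun x : ℝ => (((2:ℝ) ^ ((p.1:ℝ) / 2) : ℝ) : ℂ) * ψ ((2:ℝ) ^ p.1 * x - (p.2 : ℝ))) ξ =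
      fq p (𝓕 (fun x : ℝ => ψ x)) ξ := by
  have h := fourier_schwAff (dy p.1) (dy (-p.1)) (p.2 : ℝ) (by
      intro x ξ
      simp only [dy_apply, RCLike.inner_apply, conj_trivial]
      rw [zpow_neg]
      field_simp) (by rw [adet_dy, adet_dy, zpow_neg]) ψ ξ
  rw [SchwartzMap.fourier_coe, SchwartzMap.fourier_coe] at h
  have h2 := fq_eq p (𝓕 (fun x : ℝ => ψ x)) ξ
  rw [sub_zero] at h2
  rw [← h2]
  have h3 : (fun x : ℝ => (((2:ℝ) ^ ((p.1:ℝ) / 2) : ℝ) : ℂ) * ψ ((2:ℝ) ^ p.1 * x - (p.2 : ℝ))) =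
      ⇑(((Real.sqrt (adet (dy p.1)) : ℝ) : ℂ) • schwAff (dy p.1) (p.2 : ℝ) ψ) := by
    funext x
    have := ts_eq p (fun x => ψ x) x
    unfold wT ts at this
    rw [← this]
    rfl
  rw [h3]
  exact h

/-- The frame inequality in the form needed. -/
theorem frame_ineq {g : ℝ → ℂ} {K : ℝ} (hg : Nice g K) (hgL : MemLp g 2 volume) (A : ℝ)
    (hA : 0 < A)
    (hR : ∀ (s : Finset (ℤ × ℤ)) (c : ℤ × ℤ → ℂ), A * ∑ p ∈ s, ‖c p‖ ^ 2 ≤
      ‖∑ p ∈ s, c p • (memLp_fq p hgL).toLp (fq p g)‖ ^ 2)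
    (hcomp : ∀ h : ℝ → ℂ, MemLp h 2 volume → (∀ ξ : ℝ, ξ ≤ 0 → h ξ = 0) →
      (∀ p : ℤ × ℤ, ∫ ξ : ℝ, starRingEnd ℂ (fq p g ξ) * h ξ = 0) → h =ᵐ[volume] 0)
    (h : ℝ → ℂ) (hh : MemLp h 2 volume) (h0 : ∀ x ≤ 0, h x = 0) (S : ℝ)
    (hS : ∀ s : Finset (ℤ × ℤ), ∑ q ∈ s, ‖∫ x, (starRingEnd ℂ (fq q g x)) * h x‖ ^ 2 ≤ S) :
    A * ‖hh.toLp h‖ ^ 2 ≤ S := by
  set e : ℤ × ℤ → HH := fun p => (memLp_fq p hgL).toLp (fq p g) with he
  set H : HH := hh.toLp h with hH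
  have hS0 : 0 ≤ S := by simpa using hS ∅
  have hin : ∀ p, (inner ℂ (e p) H : ℂ) = ∫ x, (starRingEnd ℂ (fq p g x)) * h x :=
    fun p => inner_toLp _ _ _ _
  -- H lies in the closed span
  set W : Submodule ℂ HH := (Submodule.span ℂ (Set.range e)).topologicalClosure with hW
  have : CompleteSpace W := (Submodule.isClosed_topologicalClosure _).completeSpace_coe
  have hHW : H ∈ W := by
    set y : HH := H - W.orthogonalProjectionOnto H with hy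
    have hyW : ∀ w ∈ W, inner ℂ w y = 0 := by
      intro w hw
      have := W.sub_starProjection_mem_orthogonal H
      exact (Submodule.mem_orthogonal _ _).1 this w hw
    have hye : ∀ p, inner ℂ (e p) y = 0 := fun p =>
      hyW _ (Submodule.le_topologicalClosure _ (Submodule.subset_span ⟨p, rfl⟩))
    have hyL : MemLp (y : ℝ → ℂ) 2 volume := Lp.memLp y
    set y' : ℝ → ℂ := (Set.Ioi (0:ℝ)).indicator (y : ℝ → ℂ) with hy'
    have hy'L : MemLp y' 2 volume := hyL.indicator measurableSet_Ioi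
    have h1 : y' =ᵐ[volume] 0 := by
      refine hcomp y' hy'L (fun ξ hξ => Set.indicator_of_notMem (by simpa using hξ) _) fun p => ?_
      have h2 : (inner ℂ (e p) y : ℂ) = ∫ x, (starRingEnd ℂ (fq p g x)) * y x := by
        have := inner_toLp (fq p g) (y : ℝ → ℂ) (memLp_fq p hgL) hyL
        rw [Lp.toLp_coeFn] at this
        exact this
      rw [← hye p, h2]
      congr 1
      funext x
      by_cases hx : x ∈ Set.Ioi (0:ℝ)
      · rw [hy', Set.indicator_of_mem hx]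
      · rw [fq_neg hg p x (not_lt.1 hx)]; simp
    have h3 : (inner ℂ H y : ℂ) = 0 := by
      have := inner_toLp h (y : ℝ → ℂ) hh hyL
      rw [Lp.toLp_coeFn] at this
      rw [this]
      have h4 : (fun x => (starRingEnd ℂ) (h x) * (y : ℝ → ℂ) x) =ᵐ[volume] fun _ => 0 := by
        filter_upwards [h1] with x hx
        by_cases hx0 : x ∈ Set.Ioi (0:ℝ)
        · rw [hy', Set.indicator_of_mem hx0] at hx
          rw [hx]; simp
        · rw [h0 x (not_lt.1 hx0)]; simp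
      rw [integral_congr_ae h4]; simp
    have h5 : (inner ℂ y y : ℂ) = 0 := by
      have h6 : (inner ℂ y y : ℂ) = inner ℂ H y - inner ℂ ((W.orthogonalProjectionOnto H : W) : HH) y := by
        rw [← inner_sub_left]
      rw [h6, h3, hyW _ (W.orthogonalProjectionOnto H).2, sub_zero]
    have h7 : y = 0 := inner_self_eq_zero.1 h5
    rw [hy, sub_eq_zero] at h7
    rw [h7]
    exact (W.orthogonalProjectionOnto H).2
  have hspan : ∀ x ∈ (Submodule.span ℂ (Set.range e) : Submodule ℂ HH),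
      Real.sqrt A * ‖(inner ℂ x H : ℂ)‖ ≤ ‖x‖ * Real.sqrt S := by
    intro x hx
    rw [Finsupp.mem_span_range_iff_exists_finsupp] at hx
    obtain ⟨c, rfl⟩ := hx
    rw [Finsupp.sum]
    have e2 : ‖(inner ℂ (∑ p ∈ c.support, c p • e p) H : ℂ)‖ ≤
        Real.sqrt (∑ p ∈ c.support, ‖c p‖ ^ 2) * Real.sqrt S := by
      calc ‖(inner ℂ (∑ p ∈ c.support, c p • e p) H : ℂ)‖
          ≤ ∑ p ∈ c.support, ‖c p‖ * ‖(inner ℂ (e p) H : ℂ)‖ := by
            rw [sum_inner]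
            refine (norm_sum_le _ _).trans (le_of_eq ?_)
            refine Finset.sum_congr rfl fun p _ => ?_
            rw [inner_smul_left, norm_mul, RCLike.norm_conj]
        _ ≤ Real.sqrt (∑ p ∈ c.support, ‖c p‖ ^ 2) *
            Real.sqrt (∑ p ∈ c.support, ‖(inner ℂ (e p) H : ℂ)‖ ^ 2) :=
            Real.sum_mul_le_sqrt_mul_sqrt _ _ _
        _ ≤ Real.sqrt (∑ p ∈ c.support, ‖c p‖ ^ 2) * Real.sqrt S := by
            gcongr
            simp_rw [hin]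
            exact hS _
    have e3 : Real.sqrt A * Real.sqrt (∑ p ∈ c.support, ‖c p‖ ^ 2) ≤
        ‖∑ p ∈ c.support, c p • e p‖ := by
      rw [← Real.sqrt_mul hA.le, Real.sqrt_le_left (norm_nonneg _)]
      exact hR _ _
    calc Real.sqrt A * ‖(inner ℂ (∑ p ∈ c.support, c p • e p) H : ℂ)‖
        ≤ Real.sqrt A * (Real.sqrt (∑ p ∈ c.support, ‖c p‖ ^ 2) * Real.sqrt S) := by gcongr
      _ = (Real.sqrt A * Real.sqrt (∑ p ∈ c.support, ‖c p‖ ^ 2)) * Real.sqrt S := by ring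
      _ ≤ ‖∑ p ∈ c.support, c p • e p‖ * Real.sqrt S := by gcongr
  have hfin : Real.sqrt A * ‖(inner ℂ H H : ℂ)‖ ≤ ‖H‖ * Real.sqrt S := by
    have hcl : IsClosed {x : HH | Real.sqrt A * ‖(inner ℂ x H : ℂ)‖ ≤ ‖x‖ * Real.sqrt S} := by
      apply isClosed_le <;> fun_prop
    exact closure_minimal (t := {x : HH | Real.sqrt A * ‖(inner ℂ x H : ℂ)‖ ≤ ‖x‖ * Real.sqrt S})
      (fun x hx => hspan x hx) hcl hHW
  have hn : ‖(inner ℂ H H : ℂ)‖ = ‖H‖ ^ 2 := by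
    rw [inner_self_eq_norm_sq_to_K]; simp
  rw [hn] at hfin
  by_cases hz : ‖H‖ = 0
  · rw [hz]; simpa using hS0
  · have hpos : 0 < ‖H‖ := lt_of_le_of_ne (norm_nonneg _) (Ne.symm hz)
    have h1 : Real.sqrt A * ‖H‖ ≤ Real.sqrt S := by
      have : ‖H‖ * (Real.sqrt A * ‖H‖) ≤ ‖H‖ * Real.sqrt S := by nlinarith
      exact le_of_mul_le_mul_left this hpos
    have h2 := pow_le_pow_left₀ (by positivity) h1 2
    rw [mul_pow, Real.sq_sqrt hA.le, Real.sq_sqrt hS0] at h2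
    exact h2

theorem no_schwartz_wavelet (ψ : SchwartzMap ℝ ℂ)
    (hz : ∀ ξ : ℝ, ξ ≤ 0 → 𝓕 (fun x : ℝ => ψ x) ξ = 0) (A B : ℝ) (hA : 0 < A)
    (hR : ∀ c : ℤ × ℤ →₀ ℂ,
      A * c.sum (fun _ a => ‖a‖ ^ 2) ≤
        ∫ x : ℝ, ‖c.sum (fun p a => a * ((((2:ℝ) ^ ((p.1:ℝ) / 2) : ℝ) : ℂ) *
          ψ ((2:ℝ) ^ p.1 * x - (p.2 : ℝ))))‖ ^ 2 ∧
      ∫ x : ℝ, ‖c.sum (fun p a => a * ((((2:ℝ) ^ ((p.1:ℝ) / 2) : ℝ) : ℂ) *
          ψ ((2:ℝ) ^ p.1 * x - (p.2 : ℝ))))‖ ^ 2 ≤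
        B * c.sum (fun _ a => ‖a‖ ^ 2))
    (hcomp : ∀ h : ℝ → ℂ, MemLp h 2 volume → (∀ ξ : ℝ, ξ ≤ 0 → h ξ = 0) →
      (∀ p : ℤ × ℤ, ∫ ξ : ℝ, starRingEnd ℂ
          (𝓕 (fun x : ℝ => (((2:ℝ) ^ ((p.1:ℝ) / 2) : ℝ) : ℂ) *
            ψ ((2:ℝ) ^ p.1 * x - (p.2 : ℝ))) ξ) * h ξ = 0) →
      h =ᵐ[volume] 0) : False := by
  classical
  set G : SchwartzMap ℝ ℂ := 𝓕 ψ with hG
  set g : ℝ → ℂ := 𝓕 (fun x : ℝ => ψ x) with hgdef
  have hGg : ⇑G = g := by rw [hG, SchwartzMap.fourier_coe]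
  obtain ⟨K, hK⟩ := exists_nice G (fun x hx => by rw [hGg]; exact hz x hx)
  rw [hGg] at hK
  have hgL : MemLp g 2 volume := by rw [← hGg]; exact G.memLp 2
  have hψ : MemLp (fun x => ψ x) 2 volume := ψ.memLp 2
  have hFψ : 𝓕 (hψ.toLp (fun x => ψ x)) = hgL.toLp g := by
    have h1 := SchwartzMap.toLp_fourier_eq ψ
    have h2 : ψ.toLp 2 = hψ.toLp (fun x => ψ x) := rfl
    rw [h2] at h1
    rw [h1]
    have h3 : (𝓕 ψ).toLp 2 = (G.memLp 2).toLp (⇑G) := rfl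
    rw [h3]
    apply MemLp.toLp_congr
    rw [hGg]
  have hlow : ∀ (s : Finset (ℤ × ℤ)) (c : ℤ × ℤ → ℂ), A * ∑ p ∈ s, ‖c p‖ ^ 2 ≤
      ‖∑ p ∈ s, c p • (memLp_fq p hgL).toLp (fq p g)‖ ^ 2 := by
    intro s c
    have h1 := (hR (Finsupp.indicator s (fun p _ => c p))).1
    rw [Finsupp.sum_indicator_index _ (fun _ _ => by simp),
      ] at h1
    have h2 : ∀ x : ℝ, (Finsupp.indicator s (fun p _ => c p)).sum
        (fun p a => a * ((((2:ℝ) ^ ((p.1:ℝ) / 2) : ℝ) : ℂ) * ψ ((2:ℝ) ^ p.1 * x - (p.2 : ℝ)))) =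
        ∑ p ∈ s, c p * ts p (fun x => ψ x) x := by
      intro x
      rw [Finsupp.sum_indicator_index _ (fun _ _ => by simp)]
      rfl
    simp_rw [h2] at h1
    rw [← norm_sq_toLp _ (memLp_sum (fun p => memLp_ts p hψ) s c)] at h1
    have h3 : 𝓕 ((memLp_sum (fun p => memLp_ts p hψ) s c).toLp _) =
        ∑ p ∈ s, c p • (memLp_fq p hgL).toLp (fq p g) := by
      rw [toLp_sum' (fun p => memLp_ts p hψ)]
      have e1 : ∀ v : HH, 𝓕 v = Lp.fourierTransformₗᵢ ℝ ℂ v := fun v => rfl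
      rw [e1, map_sum]
      refine Finset.sum_congr rfl fun p _ => ?_
      rw [map_smul, ← e1, ← Ds_toLp p hψ, fourier_Ds, hFψ, Dh_toLp]
    rw [← Lp.norm_fourier_eq, h3] at h1
    exact h1
  have hcomp' : ∀ h : ℝ → ℂ, MemLp h 2 volume → (∀ ξ : ℝ, ξ ≤ 0 → h ξ = 0) →
      (∀ p : ℤ × ℤ, ∫ ξ : ℝ, starRingEnd ℂ (fq p g ξ) * h ξ = 0) → h =ᵐ[volume] 0 := by
    intro h h1 h2 h3
    refine hcomp h h1 h2 fun p => ?_
    simp_rw [fourier_ts ψ p]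
    exact h3 p
  have hfr := frame_ineq hK hgL A hA hlow hcomp'
  obtain ⟨M, hM⟩ := finite_at_zero hK hgL A hA hfr
  have hKp := hK.pos
  refine abs_contra (uu g) A (2 * K) hA (by positivity)
    (fun ξ hξ s c => lower_uu hK hgL A hlow ξ hξ s c)
    (fun ξ hξ ξ' hξ' s => sum_uu_sub hK hξ.1 hξ'.1 s) M hM ?_
    (fun p => ex (ix p).2 ((2:ℝ) ^ (-(ix p).1))) ?_
  · intro p
    rw [uu_apply hK le_rfl, hK.zero]
    · simp
    · simp
  · intro p k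
    rw [uu_apply hK le_rfl, uu_apply hK zero_le_one]
    push_cast
    rw [mul_add, mul_one, ex_add]
    have e : (2:ℝ) ^ (-(ix p).1) * (0 + ((k:ℝ) + 1)) = (2:ℝ) ^ (-(ix p).1) * (1 + k) := by ring
    rw [e]
    ring

end Pool.Agent.Helper704.HW
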